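import Pool.Agent.Lib_helper72.SP.Vol1

/-!
The local determinant bound for rational functions at the `d`-th roots of unity.
-/

set_option autoImplicit false

namespace SP

open Finset Polynomial MS RR Matrix

variable {p : ℕ} [hp : Fact p.Prime] {d : ℕ} [NeZero d]

/-- the square of a Vandermonde product -/
theorem prod_sq {r : ℕ} (f : Fin r → Fin r → ℝ) (hf : ∀ i j, f i j = f j i) :
    (∏ i, ∏ j ∈ Ioi i, f i j) ^ 2 = ∏ i, ∏ j ∈ univ.erase i, f i j := by
  classical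
  have h1 : ∏ i, ∏ j ∈ Ioi i, f i j = ∏ i, ∏ j ∈ Iio i, f i j := by
    rw [Finset.prod_comm' (t' := univ) (s' := fun j => Iio j) (by
      intro x y
      simp)]
    exact Finset.prod_congr rfl fun i _ => Finset.prod_congr rfl fun j _ => hf _ _
  rw [pow_two]
  nth_rewrite 1 [h1]
  rw [← Finset.prod_mul_distrib]
  refine Finset.prod_congr rfl fun i _ => ?_
  have h2 : Disjoint (Iio i) (Ioi i) := by
    rw [Finset.disjoint_left]
    intro j hj hj'
    rw [mem_Iio] at hj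
    rw [mem_Ioi] at hj'
    exact absurd hj (not_lt.2 hj'.le)
  have h3 : univ.erase i = Iio i ∪ Ioi i := by
    ext j
    simp only [mem_erase, mem_univ, and_true, mem_union, mem_Iio, mem_Ioi]
    exact ne_iff_lt_or_gt
  rw [h3, Finset.prod_union h2]

/-- the Vandermonde determinant at distinct `d`-th roots of unity -/
theorem vandermonde_ge {ψ : AddChar (ZMod d) (PadicAlgCl p)} (ho : Orth ψ) {r : ℕ}
    (κ : Fin r → ZMod d) (hκ : Function.Injective κ) :
    ‖(d : PadicAlgCl p)‖ ^ r ≤ ‖(Matrix.vandermonde fun i => ψ (κ i)).det‖ ^ 2 := by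
  classical
  rw [Matrix.det_vandermonde, norm_prod]
  have h1 : ∏ i, ‖∏ j ∈ Ioi i, (ψ (κ j) - ψ (κ i))‖ = ∏ i, ∏ j ∈ Ioi i, ‖ψ (κ j) - ψ (κ i)‖ :=
    Finset.prod_congr rfl fun i _ => norm_prod _ _
  rw [h1, prod_sq (fun i j => ‖ψ (κ j) - ψ (κ i)‖) fun i j => norm_sub_rev _ _]
  calc ‖(d : PadicAlgCl p)‖ ^ r = ∏ _i : Fin r, ‖(d : PadicAlgCl p)‖ := by
        rw [Finset.prod_const, Finset.card_univ, Fintype.card_fin]
    _ ≤ _ := by
        refine Finset.prod_le_prod (fun _ _ => norm_nonneg _) fun i _ => ?_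
        have h2 := prod_subset_ge ho (κ i) ((univ.erase i).image κ) (by
          intro h
          obtain ⟨j, hj, hji⟩ := mem_image.1 h
          exact (mem_erase.1 hj).1 (hκ hji))
        rw [Finset.prod_image fun a _ b _ h => hκ h] at h2
        exact h2

/-- a splitting of the indices -/
theorem exists_equiv {r : ℕ} (hr : r ≤ d) : ∃ e : Fin r ⊕ Fin (d - r) ≃ ZMod d,
    ∀ i : Fin r, e (Sum.inl i) = ((i : ℕ) : ZMod d) := by
  classical
  let f : Fin r ⊕ Fin (d - r) → ZMod d :=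
    Sum.elim (fun i => ((i : ℕ) : ZMod d)) (fun i => ((r + (i : ℕ) : ℕ) : ZMod d))
  have hinj : Function.Injective f := by
    have hc : ∀ a b : ℕ, a < d → b < d → (a : ZMod d) = b → a = b := by
      intro a b ha hb h
      have h2 := (ZMod.natCast_eq_natCast_iff' _ _ _).1 h
      rwa [Nat.mod_eq_of_lt ha, Nat.mod_eq_of_lt hb] at h2
    rintro (i | i) (j | j) h
    · have := hc _ _ (lt_of_lt_of_le i.2 hr) (lt_of_lt_of_le j.2 hr) h
      rw [Fin.ext this]
    · have := hc _ _ (lt_of_lt_of_le i.2 hr) (by have := j.2; omega) h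
      have := i.2
      omega
    · have := hc _ _ (by have := i.2; omega) (lt_of_lt_of_le j.2 hr) h
      have := j.2
      omega
    · have := hc _ _ (by have := i.2; omega) (by have := j.2; omega) h
      have h3 : (i : ℕ) = j := by omega
      rw [Fin.ext h3]
  have hbij : Function.Bijective f := by
    rw [Fintype.bijective_iff_injective_and_card]
    refine ⟨hinj, ?_⟩
    rw [Fintype.card_sum, Fintype.card_fin, Fintype.card_fin, ZMod.card]
    omega
  exact ⟨Equiv.ofBijective f hbij, fun i => rfl⟩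

theorem FM_det_ne {ψ : AddChar (ZMod d) (PadicAlgCl p)} (ho : Orth ψ) : (FM ψ).det ≠ 0 := by
  intro h
  have h1 := det_FM' ho
  rw [h, mul_zero] at h1
  have h2 : (d : PadicAlgCl p) ≠ 0 := by exact_mod_cast NeZero.ne d
  exact pow_ne_zero _ h2 h1.symm

/-- evaluation at some of the points -/
theorem det_eval_le {ψ : AddChar (ZMod d) (PadicAlgCl p)} (ho : Orth ψ)
    (a : ZMod d → PadicAlgCl p) (P Q A : (PadicAlgCl p)[X])
    (hP : ∀ n, ‖P.coeff n‖ ≤ 1) (hQ : ∀ n, ‖Q.coeff n‖ ≤ 1) (hA : ∀ n, ‖A.coeff n‖ ≤ 1)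
    (hb : ∀ k, Q.eval (ψ k) * bk ψ a k = P.eval (ψ k) + A.eval (ψ k) * Q.eval (ψ k))
    (J : Finset (ZMod d)) (π : Equiv.Perm (ZMod d)) {r : ℕ} (κ : Fin r → ZMod d)
    (hκ : Function.Injective κ) :
    ‖(Matrix.vandermonde fun i => ψ (κ i)).det‖ *
      (‖(XM a J π).det‖ * ∏ k, ‖Q.eval (ψ k)‖) ≤
        ∏ i, max ‖P.eval (ψ (κ i))‖ ‖Q.eval (ψ (κ i))‖ := by
  classical
  have hrd : r ≤ d := by
    have := Fintype.card_le_of_injective κ hκ
    rwa [Fintype.card_fin, ZMod.card] at this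
  obtain ⟨e, he⟩ := exists_equiv hrd
  set f : ZMod d → PadicAlgCl p := fold d (P + A * Q) with hf
  set q : ZMod d → PadicAlgCl p := fold d Q with hq
  have hf1 : ∀ l, ‖f l‖ ≤ 1 := norm_fold_le fun n => by
    rw [coeff_add]
    exact (norm_add_le_max' _ _).trans (max_le (hP n) (gauss_mul hA hQ n))
  have hq1 : ∀ l, ‖q l‖ ≤ 1 := norm_fold_le hQ
  have hbf : ∀ k, bk ψ f k = Q.eval (ψ k) * bk ψ a k := by
    intro k
    rw [hf, bk_fold, eval_add, eval_mul, hb]
  have hbq : ∀ k, bk ψ q k = Q.eval (ψ k) := fun k => by rw [hq, bk_fold]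
  have hAb : ∀ k, ‖A.eval (ψ k)‖ ≤ 1 := by
    intro k
    rw [eval_eq_sum_range]
    refine MS.norm_sum_le' _ _ zero_le_one fun n _ => ?_
    rw [norm_mul, norm_pow, norm_char, one_pow, mul_one]
    exact hA n
  set M : Matrix (ZMod d) (ZMod d) (PadicAlgCl p) :=
    Matrix.of fun i j => if j ∈ J then f (i - j) else q (i - π j) with hM
  have hM1 : ∀ i j, ‖M i j‖ ≤ 1 := by
    intro i j
    rw [hM, Matrix.of_apply]
    split_ifs
    · exact hf1 _
    · exact hq1 _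
  have hFM : ∀ k j, (FM ψ * M) k j =
      if j ∈ J then bk ψ f k * ψ (k * j) else bk ψ q k * ψ (k * π j) := by
    intro k j
    rw [Matrix.mul_apply]
    simp only [FM, hM, Matrix.of_apply]
    have hshift : ∀ (u : ZMod d → PadicAlgCl p) (x : ZMod d),
        ∑ i, ψ (k * i) * u (i - x) = bk ψ u k * ψ (k * x) := by
      intro u x
      unfold bk
      rw [← Equiv.sum_comp (Equiv.addRight x), Finset.sum_mul]
      refine Finset.sum_congr rfl fun l _ => ?_
      simp only [Equiv.coe_addRight, add_sub_cancel_right, mul_add, AddChar.map_add_eq_mul]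
      ring
    split_ifs with hj
    · exact hshift f j
    · exact hshift q (π j)
  have hdetM : M.det = (∏ k, Q.eval (ψ k)) * (XM a J π).det := by
    have h1 : FM ψ * M = Matrix.diagonal (fun k => Q.eval (ψ k)) * (FM ψ * XM a J π) := by
      ext k j
      rw [hFM, Matrix.diagonal_mul, FM_mul_XM]
      split_ifs with hj
      · rw [hbf]; ring
      · rw [hbq]
    have h2 := congrArg Matrix.det h1
    rw [Matrix.det_mul, Matrix.det_mul, Matrix.det_mul, Matrix.det_diagonal] at h2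
    refine mul_left_cancel₀ (FM_det_ne ho) ?_
    rw [h2]
    ring
  -- the functionals
  set G : Matrix (Fin r ⊕ Fin (d - r)) (ZMod d) (PadicAlgCl p) :=
    Matrix.of fun s j => Sum.elim (fun i => ψ (κ i * j))
      (fun i => if j = e (Sum.inr i) then 1 else 0) s with hG
  have hGdet : (G.submatrix id e).det = (Matrix.vandermonde fun i => ψ (κ i)).det := by
    have h1 : G.submatrix id e = Matrix.fromBlocks (Matrix.vandermonde fun i => ψ (κ i))
        (Matrix.of fun i j => ψ (κ i * e (Sum.inr j))) 0 1 := by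
      ext s t
      rcases s with s | s <;> rcases t with t | t
      · rw [Matrix.submatrix_apply, Matrix.fromBlocks_apply₁₁, Matrix.vandermonde_apply, hG,
          Matrix.of_apply, id, Sum.elim_inl, he]
        have e1 : κ s * ((t : ℕ) : ZMod d) = (t : ℕ) • κ s := by rw [nsmul_eq_mul, mul_comm]
        rw [e1, AddChar.map_nsmul_eq_pow]
      · rfl
      · rw [Matrix.submatrix_apply, Matrix.fromBlocks_apply₂₁, hG, Matrix.of_apply, id,
          Sum.elim_inr, if_neg, Matrix.zero_apply]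
        intro h
        exact Sum.inl_ne_inr (e.injective h)
      · rw [Matrix.submatrix_apply, Matrix.fromBlocks_apply₂₂, hG, Matrix.of_apply, id,
          Sum.elim_inr, Matrix.one_apply]
        by_cases hst : s = t
        · rw [if_pos hst, if_pos (by rw [hst])]
        · rw [if_neg hst, if_neg]
          intro h
          exact hst (Sum.inr_injective (e.injective h)).symm
    rw [h1, Matrix.det_fromBlocks_zero₂₁, Matrix.det_one, mul_one]
  have hGM : (G.submatrix id e).det * M.det = ((G * M).submatrix id e).det := by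
    rw [← Matrix.det_submatrix_equiv_self e M, ← Matrix.det_mul, Matrix.submatrix_mul_equiv]
  have hentry : ∀ (s t : Fin r ⊕ Fin (d - r)), ‖((G * M).submatrix id e) s t‖ ≤
      Sum.elim (fun i => max ‖P.eval (ψ (κ i))‖ ‖Q.eval (ψ (κ i))‖) (fun _ => (1 : ℝ)) s := by
    intro s t
    rw [Matrix.submatrix_apply, id]
    rcases s with i | i
    · rw [Sum.elim_inl]
      have h1 : (G * M) (Sum.inl i) (e t) = (FM ψ * M) (κ i) (e t) := by
        rw [Matrix.mul_apply, Matrix.mul_apply]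
        rfl
      rw [h1, hFM]
      split_ifs with hj
      · rw [norm_mul, norm_char, mul_one, hbf, hb]
        refine (norm_add_le_max' _ _).trans (max_le_max le_rfl ?_)
        rw [norm_mul]
        exact mul_le_of_le_one_left (norm_nonneg _) (hAb _)
      · rw [norm_mul, norm_char, mul_one, hbq]
        exact le_max_right _ _
    · rw [Sum.elim_inr]
      have h1 : (G * M) (Sum.inr i) (e t) = M (e (Sum.inr i)) (e t) := by
        rw [Matrix.mul_apply, Finset.sum_eq_single (e (Sum.inr i))]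
        · rw [hG, Matrix.of_apply, Sum.elim_inr, if_pos rfl, one_mul]
        · intro j _ hj
          rw [hG, Matrix.of_apply, Sum.elim_inr, if_neg hj, zero_mul]
        · intro h; exact absurd (mem_univ _) h
      rw [h1]
      exact hM1 _ _
  have hfin := norm_det_le (hna p) ((G * M).submatrix id e)
    (Sum.elim (fun i => max ‖P.eval (ψ (κ i))‖ ‖Q.eval (ψ (κ i))‖) (fun _ => (1 : ℝ)))
    (by
      rintro (i | i)
      · exact (norm_nonneg _).trans (le_max_left _ _)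
      · exact zero_le_one) hentry
  rw [Fintype.prod_sum_type] at hfin
  simp only [Sum.elim_inl, Sum.elim_inr, Finset.prod_const_one, mul_one] at hfin
  rw [← hGM, norm_mul, hGdet, hdetM, norm_mul, norm_prod, mul_comm (∏ k, ‖Q.eval (ψ k)‖)] at hfin
  exact hfin

/-- the normalised version -/
theorem det_rat_le' {ψ : AddChar (ZMod d) (PadicAlgCl p)} (ho : Orth ψ)
    (a : ZMod d → PadicAlgCl p) (P Q A : (PadicAlgCl p)[X])
    (hP : ∀ n, ‖P.coeff n‖ ≤ 1) (hQ : ∀ n, ‖Q.coeff n‖ ≤ 1) (hA : ∀ n, ‖A.coeff n‖ ≤ 1)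
    {m : ℕ} (hR : ∃ R : (PadicAlgCl p)[X],
      (∀ k, ‖R.eval (ψ k)‖ ≤ max ‖P.eval (ψ k)‖ ‖Q.eval (ψ k)‖) ∧ R.natDegree ≤ m ∧
      ∃ n, 1 ≤ ‖R.coeff n‖)
    (hb : ∀ k, Q.eval (ψ k) * bk ψ a k = P.eval (ψ k) + A.eval (ψ k) * Q.eval (ψ k))
    (hQ0 : ∀ k, Q.eval (ψ k) ≠ 0)
    (J : Finset (ZMod d)) (π : Equiv.Perm (ZMod d)) :
    ‖(XM a J π).det‖ ^ 2 * ‖(d : PadicAlgCl p)‖ ^ (3 * m) ≤
      (∏ k, max 1 ‖bk ψ a k‖) ^ 2 := by
  classical
  obtain ⟨R, hRPQ, hRm, hRc⟩ := hR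
  obtain ⟨B, hBm, hB⟩ := prod_compl_ge ho R hRc hRm
  set δ := ‖(d : PadicAlgCl p)‖ with hδ
  have hδ1 : δ ≤ 1 := norm_natCast_le_one d
  have hδ0 : 0 < δ := norm_pos_iff.2 (by exact_mod_cast NeZero.ne d)
  set ε : ZMod d → ℝ := fun k => max ‖P.eval (ψ k)‖ ‖Q.eval (ψ k)‖ with hε
  have hQpos : ∀ k, 0 < ‖Q.eval (ψ k)‖ := fun k => norm_pos_iff.2 (hQ0 k)
  have hεpos : ∀ k, 0 < ε k := fun k => lt_of_lt_of_le (hQpos k) (le_max_right _ _)
  have hAb : ∀ k, ‖A.eval (ψ k)‖ ≤ 1 := by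
    intro k
    rw [eval_eq_sum_range]
    refine MS.norm_sum_le' _ _ zero_le_one fun n _ => ?_
    rw [norm_mul, norm_pow, norm_char, one_pow, mul_one]
    exact hA n
  have hεb : ∀ k, ε k ≤ ‖Q.eval (ψ k)‖ * max 1 ‖bk ψ a k‖ := by
    intro k
    have h1 : P.eval (ψ k) = Q.eval (ψ k) * (bk ψ a k - A.eval (ψ k)) := by
      rw [mul_sub, hb]
      ring
    refine max_le ?_ (le_mul_of_one_le_right (norm_nonneg _) (le_max_left _ _))
    rw [h1, norm_mul]
    refine mul_le_mul_of_nonneg_left ?_ (norm_nonneg _)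
    refine (norm_sub_le_max' _ _).trans (max_le (le_max_right _ _) ?_)
    exact (hAb k).trans (le_max_left _ _)
  set κ : Fin B.card → ZMod d := fun i => (B.equivFin.symm i : ZMod d) with hκ
  have hκi : Function.Injective κ := fun i j h =>
    B.equivFin.symm.injective (Subtype.ext h)
  have hprodκ : ∏ i, ε (κ i) = ∏ k ∈ B, ε k := by
    rw [← Finset.prod_coe_sort B]
    exact Equiv.prod_comp B.equivFin.symm fun k : B => ε k
  have h1 := det_eval_le ho a P Q A hP hQ hA hb J π κ hκi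
  have h2 := vandermonde_ge ho κ hκi
  have h1' : ‖(Matrix.vandermonde fun i => ψ (κ i)).det‖ *
      (‖(XM a J π).det‖ * ∏ k, ‖Q.eval (ψ k)‖) ≤ ∏ k ∈ B, ε k := by
    rw [← hprodκ]
    exact h1
  set V := ‖(Matrix.vandermonde fun i => ψ (κ i)).det‖ with hV
  set D := ‖(XM a J π).det‖ with hD
  set q := ∏ k, ‖Q.eval (ψ k)‖ with hq
  have hqpos : 0 < q := Finset.prod_pos fun k _ => hQpos k
  set W := ∏ k, max 1 ‖bk ψ a k‖ with hW
  have hBc : δ ^ m ≤ ∏ k ∈ Bᶜ, ε k := by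
    exact hB.trans (Finset.prod_le_prod (fun _ _ => norm_nonneg _) fun k _ => hRPQ k)
  have hall : (∏ k ∈ B, ε k) * δ ^ m ≤ q * W := by
    calc (∏ k ∈ B, ε k) * δ ^ m ≤ (∏ k ∈ B, ε k) * ∏ k ∈ Bᶜ, ε k :=
          mul_le_mul_of_nonneg_left hBc (Finset.prod_nonneg fun k _ => (hεpos k).le)
      _ = ∏ k, ε k := Finset.prod_mul_prod_compl B ε
      _ ≤ ∏ k, (‖Q.eval (ψ k)‖ * max 1 ‖bk ψ a k‖) :=
          Finset.prod_le_prod (fun k _ => (hεpos k).le) fun k _ => hεb k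
      _ = q * W := Finset.prod_mul_distrib
  have h3 : V * D * δ ^ m ≤ W := by
    have h4 : q * (V * D * δ ^ m) ≤ q * W := by
      calc q * (V * D * δ ^ m) = (V * (D * q)) * δ ^ m := by ring
        _ ≤ (∏ k ∈ B, ε k) * δ ^ m := mul_le_mul_of_nonneg_right h1' (by positivity)
        _ ≤ _ := hall
    exact le_of_mul_le_mul_left h4 hqpos
  have hV0 : 0 ≤ V := norm_nonneg _
  have hD0 : 0 ≤ D := norm_nonneg _
  have h5 : δ ^ m ≤ V ^ 2 := (pow_le_pow_of_le_one hδ0.le hδ1 hBm).trans h2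
  calc D ^ 2 * δ ^ (3 * m) = δ ^ m * (D ^ 2 * (δ ^ m) ^ 2) := by ring
    _ ≤ V ^ 2 * (D ^ 2 * (δ ^ m) ^ 2) := mul_le_mul_of_nonneg_right h5 (by positivity)
    _ = (V * D * δ ^ m) ^ 2 := by ring
    _ ≤ W ^ 2 := pow_le_pow_left₀ (by positivity) h3 2

/-- **The local determinant bound for rational functions.** -/
theorem det_rat_le {ψ : AddChar (ZMod d) (PadicAlgCl p)} (ho : Orth ψ)
    (a : ZMod d → PadicAlgCl p) (P Q A : (PadicAlgCl p)[X]) (hA : ∀ n, ‖A.coeff n‖ ≤ 1)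
    {m : ℕ} (hPm : P.natDegree ≤ m) (hQm : Q.natDegree ≤ m) (s : ℕ)
    (hb : ∀ k, Q.eval (ψ k) * bk ψ a k =
      ψ k ^ s * P.eval (ψ k) + A.eval (ψ k) * Q.eval (ψ k))
    (hQ0 : ∀ k, Q.eval (ψ k) ≠ 0)
    (J : Finset (ZMod d)) (π : Equiv.Perm (ZMod d)) :
    ‖(XM a J π).det‖ ^ 2 * ‖(d : PadicAlgCl p)‖ ^ (3 * m) ≤
      (∏ k, max 1 ‖bk ψ a k‖) ^ 2 := by
  classical
  have hQne : Q ≠ 0 := by
    rintro rfl
    exact hQ0 0 eval_zero
  -- the largest coefficient
  obtain ⟨n₁, -, h₁⟩ := Finset.exists_max_image (range (m + 1)) (fun n => ‖P.coeff n‖)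
    ⟨0, mem_range.2 (Nat.succ_pos _)⟩
  obtain ⟨n₂, -, h₂⟩ := Finset.exists_max_image (range (m + 1)) (fun n => ‖Q.coeff n‖)
    ⟨0, mem_range.2 (Nat.succ_pos _)⟩
  have hPall : ∀ n, ‖P.coeff n‖ ≤ ‖P.coeff n₁‖ := by
    intro n
    by_cases hn : n ∈ range (m + 1)
    · exact h₁ n hn
    · rw [mem_range, not_lt] at hn
      rw [coeff_eq_zero_of_natDegree_lt (by omega), norm_zero]
      exact norm_nonneg _
  have hQall : ∀ n, ‖Q.coeff n‖ ≤ ‖Q.coeff n₂‖ := by
    intro n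
    by_cases hn : n ∈ range (m + 1)
    · exact h₂ n hn
    · rw [mem_range, not_lt] at hn
      rw [coeff_eq_zero_of_natDegree_lt (by omega), norm_zero]
      exact norm_nonneg _
  have hQpos : 0 < ‖Q.coeff n₂‖ := by
    have h3 : Q.leadingCoeff ≠ 0 := leadingCoeff_ne_zero.2 hQne
    exact lt_of_lt_of_le (norm_pos_iff.2 h3) (hQall Q.natDegree)
  obtain ⟨c, hc0, hcP, hcQ, hR⟩ : ∃ c : PadicAlgCl p, c ≠ 0 ∧ (∀ n, ‖P.coeff n‖ ≤ ‖c‖) ∧
      (∀ n, ‖Q.coeff n‖ ≤ ‖c‖) ∧ ∃ R : (PadicAlgCl p)[X], (R = P ∨ R = Q) ∧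
        ∃ n, ‖c‖ ≤ ‖R.coeff n‖ := by
    rcases le_total ‖P.coeff n₁‖ ‖Q.coeff n₂‖ with h | h
    · exact ⟨Q.coeff n₂, norm_pos_iff.1 hQpos, fun n => (hPall n).trans h, hQall,
        Q, Or.inr rfl, n₂, le_rfl⟩
    · exact ⟨P.coeff n₁, norm_pos_iff.1 (lt_of_lt_of_le hQpos h), hPall,
        fun n => (hQall n).trans h, P, Or.inl rfl, n₁, le_rfl⟩
  have hcpos : 0 < ‖c‖ := norm_pos_iff.2 hc0
  obtain ⟨R, hRPQ, n₀, hn₀⟩ := hR
  have hsc : ∀ (T : (PadicAlgCl p)[X]), (∀ n, ‖T.coeff n‖ ≤ ‖c‖) →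
      ∀ n, ‖(C c⁻¹ * T).coeff n‖ ≤ 1 := by
    intro T hT n
    rw [coeff_C_mul, norm_mul, norm_inv, inv_mul_le_iff₀ hcpos, mul_one]
    exact hT n
  have hdeg : ∀ T : (PadicAlgCl p)[X], T.natDegree ≤ m → (C c⁻¹ * T).natDegree ≤ m :=
    fun T hT => (natDegree_C_mul_le _ _).trans hT
  refine det_rat_le' ho a (X ^ s * (C c⁻¹ * P)) (C c⁻¹ * Q) A ?_ (hsc Q hcQ) hA (m := m)
    ⟨C c⁻¹ * R, ?_, ?_, n₀, ?_⟩ ?_ ?_ J π
  · intro n
    rw [coeff_X_pow_mul']
    split_ifs
    · exact hsc P hcP _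
    · rw [norm_zero]; exact zero_le_one
  · intro k
    rcases hRPQ with rfl | rfl
    · refine le_trans (le_of_eq ?_) (le_max_left _ _)
      rw [eval_mul (p := X ^ s), norm_mul ((X ^ s).eval _), eval_pow, eval_X, norm_pow, norm_char, one_pow,
        one_mul]
    · exact le_max_right _ _
  · rcases hRPQ with rfl | rfl
    · exact hdeg _ hPm
    · exact hdeg _ hQm
  · rw [coeff_C_mul, norm_mul, norm_inv, le_inv_mul_iff₀ hcpos, mul_one]
    exact hn₀
  · intro k
    rw [eval_mul, eval_mul, eval_mul, eval_C, eval_pow, eval_X, mul_assoc, hb k]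
    ring
  · intro k
    rw [eval_mul, eval_C]
    exact mul_ne_zero (inv_ne_zero hc0) (hQ0 k)

end SP
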