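import Pool.Agent.Lib_helper72.SP.ThmG
import Pool.Agent.Lib_helper72.RR.Glue2

/-!
Rational functions of bounded degree and integral elements: the theorem.
-/

set_option autoImplicit false

namespace SP

open Finset Polynomial MS RR IntermediateField

universe u

variable {Ω : Type u} [Field Ω] [Algebra ℚ Ω]

/-- polynomials with coefficients in a subfield -/
theorem exists_lift {F : IntermediateField ℚ Ω} {P : Polynomial Ω} (h : ∀ j, P.coeff j ∈ F) :
    ∃ P' : Polynomial F, P'.map (algebraMap F Ω) = P := by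
  have h1 : P ∈ Polynomial.lifts (algebraMap F Ω) := by
    rw [Polynomial.lifts_iff_coeff_lifts]
    intro n
    exact ⟨⟨P.coeff n, h n⟩, rfl⟩
  exact (Polynomial.mem_lifts P).1 h1

/-- the minimal polynomial (all exponents) -/
theorem minpoly_pure' {F : IntermediateField ℚ Ω}
    (hF : ∀ (ζ : Ω) (n : ℕ), 0 < n → ζ ^ n = 1 → ζ ∈ F) [IsAlgClosed Ω]
    {γ : Ω} (hγ0 : γ ≠ 0) {d : ℕ} (hd : 0 < d) (hdF : γ ^ d ∈ F)
    (hmin : ∀ k : ℕ, 0 < k → k < d → γ ^ k ∉ F) :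
    minpoly F γ = X ^ d - C (⟨γ ^ d, hdF⟩ : F) := by
  classical
  set q : F[X] := X ^ d - C (⟨γ ^ d, hdF⟩ : F) with hq
  have hqm : q.Monic := monic_X_pow_sub_C _ hd.ne'
  have hq0 : aeval γ q = 0 := by
    rw [hq, map_sub, map_pow, aeval_X, aeval_C, sub_eq_zero]
    rfl
  have hqd : q.natDegree = d := natDegree_X_pow_sub_C
  have hint : IsIntegral F γ := ⟨q, hqm, by rw [← aeval_def]; exact hq0⟩
  set f := minpoly F γ with hf
  have hfm : f.Monic := minpoly.monic hint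
  have hfd : f.natDegree ≤ d := by
    rw [← hqd]
    exact natDegree_le_of_dvd (minpoly.dvd F γ hq0) hqm.ne_zero
  have hfpos : 0 < f.natDegree := minpoly.natDegree_pos hint
  -- the roots of `f` are `γ` times roots of unity
  set f' : Polynomial Ω := f.map (algebraMap F Ω) with hf'
  have hsp : f'.Splits := IsAlgClosed.splits f'
  have hf'm : f'.Monic := hfm.map _
  have hroot : ∀ x ∈ f'.roots, x / γ ∈ F := by
    intro x hx
    rw [mem_roots hf'm.ne_zero, IsRoot.def, hf', eval_map, ← aeval_def] at hx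
    have h1 : aeval x q = 0 := by
      obtain ⟨r, hr⟩ := minpoly.dvd F γ hq0
      rw [hr, map_mul, ← hf, hx, zero_mul]
    rw [hq, map_sub, map_pow, aeval_X, aeval_C, sub_eq_zero] at h1
    have h2 : x ^ d = γ ^ d := h1
    refine hF _ d hd ?_
    rw [div_pow, h2, div_self (pow_ne_zero _ hγ0)]
  have hprod : ∀ s : Multiset Ω, (∀ x ∈ s, x / γ ∈ F) → s.prod / γ ^ s.card ∈ F := by
    intro s
    induction s using Multiset.induction_on with
    | empty => intro _; simp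
    | cons a s ih =>
      intro h
      have h1 := h a (Multiset.mem_cons_self a s)
      have h2 := ih fun x hx => h x (Multiset.mem_cons_of_mem hx)
      rw [Multiset.prod_cons, Multiset.card_cons, pow_succ]
      have e : a * s.prod / (γ ^ s.card * γ) = a / γ * (s.prod / γ ^ s.card) := by
        field_simp
      rw [e]
      exact mul_mem h1 h2
  have hcard : f'.roots.card = f.natDegree := by
    rw [← hsp.natDegree_eq_card_roots, hf', natDegree_map]
  have hcoef : f'.coeff 0 = (-1) ^ f.natDegree * f'.roots.prod := by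
    have h1 := hsp.coeff_zero_eq_prod_roots_of_monic hf'm
    rw [h1, hf', natDegree_map]
  have h1 : f'.roots.prod ∈ F := by
    have h2 : f'.roots.prod = (-1) ^ f.natDegree * f'.coeff 0 := by
      rw [hcoef, ← mul_assoc, ← mul_pow]
      simp
    rw [h2]
    refine mul_mem (pow_mem (neg_mem (one_mem F)) _) ?_
    rw [hf', coeff_map]
    exact (f.coeff 0).2
  have h2 : γ ^ f.natDegree ∈ F := by
    have h3 := hprod _ hroot
    rw [hcard] at h3
    have hp0 : f'.roots.prod ≠ 0 := by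
      rw [Ne, Multiset.prod_eq_zero_iff]
      intro h0
      rw [mem_roots hf'm.ne_zero, IsRoot.def, hf', eval_map, ← aeval_def] at h0
      have h5 : aeval (0 : Ω) q = 0 := by
        obtain ⟨r, hr⟩ := minpoly.dvd F γ hq0
        rw [hr, map_mul, ← hf, h0, zero_mul]
      rw [hq, map_sub, map_pow, aeval_X, aeval_C, sub_eq_zero, zero_pow hd.ne'] at h5
      exact pow_ne_zero d hγ0 h5.symm
    have h4 : γ ^ f.natDegree = f'.roots.prod * (f'.roots.prod / γ ^ f.natDegree)⁻¹ := by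
      rw [inv_div]
      field_simp
    rw [h4]
    exact mul_mem h1 (inv_mem h3)
  have h3 : f.natDegree = d := by
    by_contra hne
    exact hmin f.natDegree hfpos (lt_of_le_of_ne hfd hne) h2
  obtain ⟨r, hr⟩ := minpoly.dvd F γ hq0
  rw [← hf] at hr
  exact (eq_of_monic_of_dvd_of_natDegree_le hfm hqm ⟨r, hr⟩ (by rw [hqd, h3])).symm

variable [Algebra.IsAlgebraic ℚ Ω] [IsAlgClosed Ω]

/-- the monomials -/
theorem mono_case {α : Ω} (h0 : α ≠ 0) {S : Finset ℕ} (h2S : 2 ∈ S) {cS : ℝ} (hcS : 0 < cS)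
    (hsmall : ∀ x ∈ MSF α (S : Set ℕ), x ≠ 0 → x ∉ DivG α → cS ≤ ht x)
    {γ : Ω} (hγD : γ ∈ DivG α) {c β : Ω} (hcm : c ∈ MSF α (S : Set ℕ)) {j : ℕ}
    (hc : β = c * γ ^ j) (hβ0 : β ≠ 0) (hβD : β ∉ DivG α) : cS / 2 ≤ ht β := by
  have hγ0 : γ ≠ 0 := hγD.1
  have hα0 := ht_nonneg α
  obtain ⟨k, hk⟩ : ∃ k : ℕ, ht α / 2 ^ k ≤ cS / 2 := by
    obtain ⟨k, hk⟩ := pow_unbounded_of_one_lt (2 * ht α / cS) (by norm_num : (1 : ℝ) < 2)
    refine ⟨k, ?_⟩
    rw [div_le_iff₀ (by positivity)]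
    rw [div_lt_iff₀ hcS] at hk
    linarith
  have hw : γ ^ j ∈ DivG α := pow_mem_DivG hγD j
  obtain ⟨δ, hδ⟩ := IsAlgClosed.exists_pow_nat_eq α (n := 2 ^ k) (by positivity)
  have hδS : Smooth (S : Set ℕ) (2 ^ k) := by
    refine ⟨by positivity, fun q hq h => ?_⟩
    rw [(Nat.prime_dvd_prime_iff_eq hq Nat.prime_two).1 (hq.dvd_of_dvd_pow h)]
    exact_mod_cast h2S
  have hδM : δ ∈ MSF α (S : Set ℕ) := root_mem_MSF hδS hδ
  have hδD : δ ∈ DivG α := root_mem_DivG h0 (by positivity) hδ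
  have hδ0 : δ ≠ 0 := hδD.1
  obtain ⟨e, he⟩ := ht_round h0 hw (M := 2 ^ k) (by positivity) hδ
  push_cast at he
  have hc0 : c ≠ 0 := by
    intro h
    rw [h, zero_mul] at hc
    exact hβ0 hc
  have hx1 : c * δ ^ e ∈ MSF α (S : Set ℕ) := mul_mem hcm (zpow_mem hδM e)
  have hx2 : c * δ ^ e ≠ 0 := mul_ne_zero hc0 (zpow_ne_zero _ hδ0)
  have hx3 : c * δ ^ e ∉ DivG α := by
    intro h
    apply hβD
    have h1 : β = (c * δ ^ e) * (γ ^ j * δ ^ (-e)) := by
      rw [hc]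
      have : δ ^ e * δ ^ (-e) = 1 := by rw [← zpow_add₀ hδ0, add_neg_cancel, zpow_zero]
      linear_combination (-(c * γ ^ j)) * this
    rw [h1]
    exact mul_mem_DivG h0 h (mul_mem_DivG h0 hw (zpow_mem_DivG hδD _))
  have h1 := hsmall _ hx1 hx2 hx3
  have h2 : c * δ ^ e = β * (γ ^ j * δ ^ (-e))⁻¹ := by
    rw [hc, mul_inv, zpow_neg, inv_inv]
    have := pow_ne_zero j hγ0
    field_simp
  rw [h2] at h1
  have h3 := ht_mul_le β (γ ^ j * δ ^ (-e))⁻¹
  rw [ht_inv] at h3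
  linarith

omit [Algebra.IsAlgebraic ℚ Ω] in
/-- the data over `M_S` -/
theorem pure_data {α : Ω} (S : Set ℕ) {γ : Ω} (hγ : γ ∈ DivG α) : ∃ (t : MSF α S),
      0 < (minpoly (MSF α S) γ).natDegree ∧
      minpoly (MSF α S) γ = X ^ (minpoly (MSF α S) γ).natDegree - C t := by
  obtain ⟨hγ0, N, hN, k, hk⟩ := hγ
  have hNF : γ ^ N ∈ MSF α S := by rw [hk]; exact zpow_mem alpha_mem_MSF k
  obtain ⟨d, hd, hdF, hmin, -⟩ := exists_min_exp hγ0 hN hNF
  have hm := minpoly_pure' (fun ζ n hn h => unity_mem_MSF hn h) hγ0 hd hdF hmin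
  have hfin := natDegree_of_minpoly hm
  refine ⟨⟨γ ^ d, hdF⟩, by rw [hfin]; exact hd, ?_⟩
  rw [hfin]
  exact hm

/-- **The theorem for rational functions of bounded degree.** -/
theorem rat_thm {α : Ω} (h0 : α ≠ 0) (htor : ∀ n : ℕ, 0 < n → α ^ n ≠ 1) (S : Finset ℕ) :
    ∃ c : ℝ, 0 < c ∧ ∀ γ ∈ DivG α, ∀ d : ℕ,
      d = (minpoly (MSF α (S : Set ℕ)) γ).natDegree →
      ∀ (m : ℕ) (P Q A : (MSF α (S : Set ℕ))[X]), P.natDegree ≤ m → Q.natDegree ≤ m →
        96 * (m * Real.log d) ≤ d → aeval γ Q ≠ 0 →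
        (∀ j, ∃ k : ℕ, k.Coprime d ∧
          IsIntegral ℤ ((k : Ω) * (algebraMap (MSF α (S : Set ℕ)) Ω (A.coeff j) * γ ^ j))) →
        ∀ (n : ℤ) (β : Ω), β = γ ^ n * (aeval γ P / aeval γ Q) + aeval γ A → β ≠ 0 →
          β ∉ DivG α → c ≤ ht β := by
  classical
  set S' : Finset ℕ := S ∪ {2} with hS'
  obtain ⟨cS, hcS, hsmall⟩ := small_points h0 htor S'
  refine ⟨min (1 / 64) (cS / 2), lt_min (by norm_num) (by linarith), ?_⟩
  intro γ hγD d hd m P Q A hP hQ hdm hQ0 hA e β hβ hβ0 hβD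
  obtain ⟨t, hdpos, hm⟩ := pure_data (S : Set ℕ) hγD
  rw [← hd] at hdpos hm
  have hγ0 : γ ≠ 0 := hγD.1
  have : NeZero d := ⟨hdpos.ne'⟩
  obtain ⟨ψ, hψ⟩ := exists_orth (Ω := Ω) d
  -- the exponent may be taken between `0` and `d`
  have hγd : γ ^ d = algebraMap (MSF α (S : Set ℕ)) Ω t := by
    have := minpoly.aeval (MSF α (S : Set ℕ)) γ
    rw [hm, map_sub, map_pow, aeval_X, aeval_C, sub_eq_zero] at this
    exact this
  set s : ℕ := (e % d).toNat with hs
  have hse : ((s : ℕ) : ℤ) = e % d :=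
    Int.toNat_of_nonneg (Int.emod_nonneg _ (by exact_mod_cast hdpos.ne'))
  have hγe : γ ^ e = γ ^ s * algebraMap (MSF α (S : Set ℕ)) Ω (t ^ (e / d)) := by
    rw [map_zpow₀, ← hγd, ← zpow_natCast γ s, ← zpow_natCast γ d, ← zpow_mul, ← zpow_add₀ hγ0, hse]
    congr 1
    exact (Int.emod_add_mul_ediv e d).symm
  have hβ' : β = γ ^ s * (aeval γ (C (t ^ (e / d)) * P) / aeval γ Q) + aeval γ A := by
    rw [hβ, hγe, map_mul, aeval_C]
    ring
  have hthm := thmR hγ0 hm hψ ((natDegree_C_mul_le _ _).trans hP) hQ hQ0 s (by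
    intro l hl hld τ n
    obtain ⟨k, hk, hint⟩ := hA n
    have hlk : ¬ l ∣ k := fun h => by
      have := Nat.dvd_gcd h hld
      rw [hk] at this
      exact hl.out.one_lt.ne' (Nat.dvd_one.1 this)
    have h1 : ‖τ ((k : Ω) * (algebraMap (MSF α (S : Set ℕ)) Ω (A.coeff n) * γ ^ n))‖ ≤ 1 :=
      norm_int_le (hint.map (τ.toIntAlgHom))
    rw [map_mul τ (k : Ω), map_natCast, norm_mul, norm_natCast_prime hlk, one_mul] at h1
    exact h1) hβ' hβ0 hdm
  rcases hthm with ⟨c, j, hc⟩ | h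
  · refine (min_le_right _ _).trans ?_
    refine mono_case h0 (by simp [hS']) hcS hsmall hγD ?_ hc hβ0 hβD
    exact MSF_mono (by simp [hS']) c.2
  · exact (min_le_left _ _).trans h

end SP
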