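import Pool.Agent.Lib_helper72.RR.MI
import Pool.Agent.Lib_helper24.MS.Basic

/-!
Local lemmas: the size of the coefficients of a sparse exponential sum over the algebraic closure
of `ℚ_l`.
-/

set_option autoImplicit false

namespace SP

open Finset Polynomial MS

variable {p : ℕ} [hp : Fact p.Prime]

/-- all the coefficients have norm at most one -/
theorem coeff_prod_le {ι : Type*} [DecidableEq ι] (s : Finset ι) (z : ι → PadicAlgCl p) {θ : ℝ}
    (h1 : θ ≤ 1) (hz : ∀ i ∈ s, ‖z i‖ ≤ θ) :
    (∀ n, ‖(∏ i ∈ s, (X - C (z i))).coeff n‖ ≤ 1) ∧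
      ∀ n < s.card, ‖(∏ i ∈ s, (X - C (z i))).coeff n‖ ≤ θ := by
  induction s using Finset.induction_on with
  | empty =>
    refine ⟨fun n => ?_, fun n hn => absurd hn (by simp)⟩
    rw [Finset.prod_empty, coeff_one]
    split_ifs <;> simp
  | insert a s ha ih =>
    obtain ⟨ih1, ih2⟩ := ih fun i hi => hz i (mem_insert_of_mem hi)
    have hza := hz a (mem_insert_self a s)
    rw [Finset.prod_insert ha, mul_comm]
    constructor
    · intro n
      rcases n with _ | n
      · rw [mul_coeff_zero]
        simp only [coeff_sub, coeff_X_zero, coeff_C_zero, zero_sub, mul_neg, norm_neg, norm_mul]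
        exact mul_le_one₀ (ih1 0) (norm_nonneg _) (hza.trans h1)
      · rw [coeff_mul_X_sub_C]
        refine (norm_sub_le_max' _ _).trans (max_le (ih1 n) ?_)
        rw [norm_mul]
        exact mul_le_one₀ (ih1 _) (norm_nonneg _) (hza.trans h1)
    · intro n hn
      rw [card_insert_of_notMem ha] at hn
      rcases n with _ | n
      · rw [mul_coeff_zero]
        simp only [coeff_sub, coeff_X_zero, coeff_C_zero, zero_sub, mul_neg, norm_neg, norm_mul]
        calc _ ≤ 1 * θ := mul_le_mul (ih1 0) hza (norm_nonneg _) zero_le_one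
          _ = θ := one_mul _
      · rw [coeff_mul_X_sub_C]
        refine (norm_sub_le_max' _ _).trans (max_le (ih2 n (by omega)) ?_)
        rw [norm_mul]
        calc _ ≤ 1 * θ := mul_le_mul (ih1 _) hza (norm_nonneg _) zero_le_one
          _ = θ := one_mul _

theorem natDegree_prod' {ι : Type*} (s : Finset ι) (z : ι → PadicAlgCl p) :
    (∏ i ∈ s, (X - C (z i))).natDegree = s.card := by
  rw [natDegree_prod_of_monic _ _ fun i _ => monic_X_sub_C _]
  simp

/-- the coefficients from the moments -/
theorem moment_bound {ι : Type*} [DecidableEq ι] (s : Finset ι) (z c : ι → PadicAlgCl p)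
    (hz : ∀ i ∈ s, ‖z i‖ ≤ 1) {M : ℝ} (hM : 0 ≤ M)
    (h : ∀ t < s.card, ‖∑ i ∈ s, c i * z i ^ t‖ ≤ M) {x : ι} (hx : x ∈ s) :
    ‖c x‖ * ∏ i ∈ s.erase x, ‖z x - z i‖ ≤ M := by
  set P : (PadicAlgCl p)[X] := ∏ i ∈ s.erase x, (X - C (z i)) with hP
  have hPd : P.natDegree < s.card := by
    rw [hP, natDegree_prod', card_erase_of_mem hx]
    have := card_pos.2 ⟨x, hx⟩
    omega
  have hPc := (coeff_prod_le (s.erase x) z le_rfl
    fun i hi => hz i (mem_of_mem_erase hi)).1
  have h1 : ∑ t ∈ range s.card, P.coeff t * ∑ i ∈ s, c i * z i ^ t =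
      c x * ∏ i ∈ s.erase x, (z x - z i) := by
    have h2 : ∀ i ∈ s, ∑ t ∈ range s.card, P.coeff t * (c i * z i ^ t) = c i * P.eval (z i) := by
      intro i _
      rw [eval_eq_sum_range' hPd, Finset.mul_sum]
      exact Finset.sum_congr rfl fun t _ => by ring
    have h3 : ∀ i, P.eval (z i) = ∏ j ∈ s.erase x, (z i - z j) := by
      intro i
      rw [hP, eval_prod]
      exact Finset.prod_congr rfl fun j _ => by rw [eval_sub, eval_X, eval_C]
    simp only [Finset.mul_sum]
    rw [Finset.sum_comm, Finset.sum_congr rfl h2, Finset.sum_eq_single_of_mem x hx, h3]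
    intro i hi hix
    rw [h3, Finset.prod_eq_zero (mem_erase.2 ⟨hix, hi⟩) (sub_self _), mul_zero]
  rw [← norm_prod, ← norm_mul, ← h1]
  refine norm_sum_le' _ _ hM fun t ht => ?_
  rw [norm_mul]
  calc _ ≤ 1 * M := mul_le_mul (hPc t) (h t (mem_range.1 ht)) (norm_nonneg _) zero_le_one
    _ = M := one_mul _

/-- the window bound -/
theorem window_bound {ι : Type*} [DecidableEq ι] (s : Finset ι) (y c : ι → PadicAlgCl p)
    (hy : ∀ i ∈ s, ‖y i‖ = 1) (w : ℕ) {M : ℝ} (hM : 0 ≤ M)
    (h : ∀ t < s.card, ‖∑ i ∈ s, c i * y i ^ (w + t)‖ ≤ M) {x : ι} (hx : x ∈ s) :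
    ‖c x‖ * ∏ i ∈ s.erase x, ‖y x - y i‖ ≤ M := by
  have h1 := moment_bound s y (fun i => c i * y i ^ w) (fun i hi => (hy i hi).le) hM
    (fun t ht => by
      have := h t ht
      have e : ∑ i ∈ s, c i * y i ^ w * y i ^ t = ∑ i ∈ s, c i * y i ^ (w + t) :=
        Finset.sum_congr rfl fun i _ => by rw [pow_add]; ring
      rw [e]; exact this) hx
  beta_reduce at h1
  rwa [norm_mul, norm_pow, hy x hx, one_pow, mul_one] at h1

/-- Lagrange interpolation in integers which are pairwise incongruent modulo `p` -/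
theorem lagrange_bound (P : (PadicAlgCl p)[X]) (V : Finset ℕ) (hP : P.degree < V.card)
    (hV : ∀ v ∈ V, ∀ w ∈ V, v ≠ w → ‖(v : PadicAlgCl p) - w‖ = 1) {F : ℝ} (hF : 0 ≤ F)
    (h : ∀ v ∈ V, ‖P.eval (v : PadicAlgCl p)‖ ≤ F) (k : ℕ) :
    ‖P.eval (k : PadicAlgCl p)‖ ≤ F := by
  have hinj : Set.InjOn (fun v : ℕ => (v : PadicAlgCl p)) (V : Set ℕ) :=
    Nat.cast_injective.injOn
  rw [Lagrange.eq_interpolate hinj hP, Lagrange.interpolate_apply, eval_finsetSum]
  refine norm_sum_le' _ _ hF fun v hv => ?_
  rw [eval_mul, eval_C, norm_mul]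
  have h1 : ‖(Lagrange.basis V (fun v : ℕ => (v : PadicAlgCl p)) v).eval (k : PadicAlgCl p)‖ ≤ 1 := by
    unfold Lagrange.basis
    rw [eval_prod, norm_prod]
    refine Finset.prod_le_one (fun _ _ => norm_nonneg _) fun w hw => ?_
    unfold Lagrange.basisDivisor
    rw [eval_mul, eval_C, eval_sub, eval_X, eval_C, norm_mul, norm_inv,
      hV v hv w (mem_of_mem_erase hw) (ne_of_mem_erase hw).symm, inv_one, one_mul]
    exact (norm_sub_le_max' _ _).trans (max_le (norm_natCast_le_one _) (norm_natCast_le_one _))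
  calc _ ≤ F * 1 := mul_le_mul (h v hv) h1 (norm_nonneg _) hF
    _ = F := mul_one _

/-- the truncated Newton series as a polynomial -/
noncomputable def newt (N : ℕ → PadicAlgCl p) (m : ℕ) : (PadicAlgCl p)[X] :=
  ∑ t ∈ range m, C (N t / (t.factorial : PadicAlgCl p)) * descPochhammer (PadicAlgCl p) t

theorem newt_eval (N : ℕ → PadicAlgCl p) (m k : ℕ) :
    (newt N m).eval (k : PadicAlgCl p) = ∑ t ∈ range m, (k.choose t : PadicAlgCl p) * N t := by
  unfold newt
  rw [eval_finsetSum]
  refine Finset.sum_congr rfl fun t _ => ?_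
  rw [eval_mul, eval_C, descPochhammer_eval_eq_descFactorial, Nat.descFactorial_eq_factorial_mul_choose]
  have h : (t.factorial : PadicAlgCl p) ≠ 0 := by exact_mod_cast t.factorial_ne_zero
  push_cast
  field_simp

theorem newt_degree (N : ℕ → PadicAlgCl p) {m : ℕ} (hm : 0 < m) : (newt N m).degree < m := by
  unfold newt
  refine lt_of_le_of_lt (degree_sum_le _ _) ?_
  rw [Finset.sup_lt_iff (by exact_mod_cast WithBot.bot_lt_coe m)]
  intro t ht
  refine lt_of_le_of_lt degree_le_natDegree ?_
  have h1 := natDegree_C_mul_le (N t / (t.factorial : PadicAlgCl p)) (descPochhammer (PadicAlgCl p) t)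
  rw [descPochhammer_natDegree] at h1
  exact_mod_cast lt_of_le_of_lt h1 (mem_range.1 ht)

/-- the classes bound: the values at integers which are pairwise incongruent modulo `p` -/
theorem classes_bound {ι : Type*} [DecidableEq ι] (s : Finset ι) (y c : ι → PadicAlgCl p) {θ : ℝ}
    (hθ : θ < 1) (hy : ∀ i ∈ s, ‖y i - 1‖ ≤ θ) (V : Finset ℕ) (hVs : V.card = s.card)
    (hV : ∀ v ∈ V, ∀ w ∈ V, v ≠ w → ‖(v : PadicAlgCl p) - w‖ = 1) {F : ℝ} (hF : 0 ≤ F)
    (h : ∀ v ∈ V, ‖∑ i ∈ s, c i * y i ^ v‖ ≤ F) {x : ι} (hx : x ∈ s) :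
    ‖c x‖ * ∏ i ∈ s.erase x, ‖y x - y i‖ ≤ F := by
  set m := s.card with hm
  have hm0 : 0 < m := card_pos.2 ⟨x, hx⟩
  have hθ0 : 0 ≤ θ := (norm_nonneg _).trans (hy x hx)
  set z : ι → PadicAlgCl p := fun i => y i - 1 with hz
  set N : ℕ → PadicAlgCl p := fun t => ∑ i ∈ s, c i * z i ^ t with hN
  obtain ⟨t₀, ht₀, hmax⟩ := Finset.exists_max_image (range m) (fun t => ‖N t‖)
    ⟨0, mem_range.2 hm0⟩
  set M := ‖N t₀‖ with hM
  have hM0 : 0 ≤ M := norm_nonneg _
  -- the later moments
  have hlate : ∀ t, ‖N (t + m)‖ ≤ θ * M := by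
    set W : (PadicAlgCl p)[X] := ∏ i ∈ s, (X - C (z i)) with hW
    have hWc := (coeff_prod_le s z hθ.le hy).2
    have hWd : W.natDegree = m := natDegree_prod' s z
    have hWm : W.Monic := monic_prod_of_monic _ _ fun i _ => monic_X_sub_C _
    have hrec : ∀ t, N (t + m) = -∑ j ∈ range m, W.coeff j * N (t + j) := by
      intro t
      have h1 : ∀ i ∈ s, z i ^ m = -∑ j ∈ range m, W.coeff j * z i ^ j := by
        intro i hi
        have h2 : W.eval (z i) = 0 := by
          rw [hW, eval_prod]
          exact Finset.prod_eq_zero hi (by rw [eval_sub, eval_X, eval_C, sub_self])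
        rw [eval_eq_sum_range, hWd, Finset.sum_range_succ] at h2
        have h3 : W.coeff m = 1 := by rw [← hWd]; exact hWm
        rw [h3, one_mul] at h2
        exact (neg_eq_of_add_eq_zero_right h2).symm
      simp only [hN]
      have h4 : ∑ i ∈ s, c i * z i ^ (t + m) =
          -∑ i ∈ s, ∑ j ∈ range m, W.coeff j * (c i * z i ^ (t + j)) := by
        rw [← Finset.sum_neg_distrib]
        refine Finset.sum_congr rfl fun i hi => ?_
        rw [pow_add, h1 i hi, mul_neg, mul_neg, Finset.mul_sum, Finset.mul_sum]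
        congr 1
        exact Finset.sum_congr rfl fun j _ => by rw [pow_add]; ring
      rw [h4, Finset.sum_comm]
      congr 1
      exact Finset.sum_congr rfl fun j _ => by rw [Finset.mul_sum]
    intro t
    induction t using Nat.strong_induction_on with
    | _ t ih =>
      rw [hrec, norm_neg]
      refine norm_sum_le' _ _ (by positivity) fun j hj => ?_
      rw [norm_mul]
      have hj' := mem_range.1 hj
      refine mul_le_mul (hWc j hj') ?_ (norm_nonneg _) hθ0
      by_cases hlt : t + j < m
      · exact hmax _ (mem_range.2 hlt)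
      · have e : t + j = (t + j - m) + m := by omega
        rw [e]
        refine (ih (t + j - m) (by omega)).trans ?_
        calc θ * M ≤ 1 * M := mul_le_mul_of_nonneg_right hθ.le hM0
          _ = M := one_mul _
  -- Newton series
  have hnewt : ∀ k : ℕ, ‖∑ i ∈ s, c i * y i ^ k - (newt N m).eval (k : PadicAlgCl p)‖ ≤ θ * M := by
    intro k
    have h1 : ∑ i ∈ s, c i * y i ^ k = ∑ t ∈ range (k + 1), (k.choose t : PadicAlgCl p) * N t := by
      have h2 : ∀ i ∈ s, c i * y i ^ k =
          ∑ t ∈ range (k + 1), (k.choose t : PadicAlgCl p) * (c i * z i ^ t) := by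
        intro i _
        have h3 : y i = z i + 1 := by simp only [hz]; ring
        rw [h3, add_pow, Finset.mul_sum]
        refine Finset.sum_congr rfl fun t _ => ?_
        rw [one_pow]
        ring
      rw [Finset.sum_congr rfl h2, Finset.sum_comm]
      exact Finset.sum_congr rfl fun t _ => by simp only [hN]; rw [Finset.mul_sum]
    rw [h1, newt_eval]
    rcases Nat.lt_or_ge k m with hk | hk
    · have h2 : ∑ t ∈ range m, (k.choose t : PadicAlgCl p) * N t =
          ∑ t ∈ range (k + 1), (k.choose t : PadicAlgCl p) * N t := by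
        symm
        refine Finset.sum_subset (range_subset_range.2 (by omega)) fun t _ ht => ?_
        rw [mem_range, not_lt] at ht
        rw [Nat.choose_eq_zero_of_lt (by omega), Nat.cast_zero, zero_mul]
      rw [h2, sub_self, norm_zero]
      positivity
    · obtain ⟨e, rfl⟩ := Nat.exists_eq_add_of_le hk
      have e1 : m + e + 1 = m + (e + 1) := by ring
      rw [e1, Finset.sum_range_add, add_sub_cancel_left]
      refine norm_sum_le' _ _ (by positivity) fun t _ => ?_
      rw [norm_mul, add_comm m t]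
      calc _ ≤ 1 * (θ * M) := mul_le_mul (norm_natCast_le_one _) (hlate t) (norm_nonneg _) zero_le_one
        _ = θ * M := one_mul _
  -- the conclusion
  have hMF : M ≤ F := by
    by_contra hlt
    rw [not_le] at hlt
    set G := max F (θ * M) with hG
    have hG0 : 0 ≤ G := hF.trans (le_max_left _ _)
    have hMpos : 0 < M := lt_of_le_of_lt hF hlt
    have hGM : G < M := max_lt hlt (by nlinarith)
    have h1 : ∀ k : ℕ, ‖(newt N m).eval (k : PadicAlgCl p)‖ ≤ G := by
      refine lagrange_bound (newt N m) V ?_ hV hG0 fun v hv => ?_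
      · rw [hVs]; exact newt_degree N hm0
      · have h2 : (newt N m).eval (v : PadicAlgCl p) = ∑ i ∈ s, c i * y i ^ v -
            (∑ i ∈ s, c i * y i ^ v - (newt N m).eval (v : PadicAlgCl p)) := by ring
        rw [h2]
        exact (norm_sub_le_max' _ _).trans (max_le_max (h v hv) (hnewt v))
    have h2 : ∀ t < m, ‖N t‖ ≤ G := by
      intro t
      induction t using Nat.strong_induction_on with
      | _ t ih =>
        intro ht
        have h3 : N t = (newt N m).eval (t : PadicAlgCl p) -
            ∑ j ∈ range t, (t.choose j : PadicAlgCl p) * N j := by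
          rw [newt_eval]
          have h4 : ∑ j ∈ range m, (t.choose j : PadicAlgCl p) * N j =
              ∑ j ∈ range (t + 1), (t.choose j : PadicAlgCl p) * N j := by
            symm
            refine Finset.sum_subset (range_subset_range.2 (by omega)) fun j _ hj => ?_
            rw [mem_range, not_lt] at hj
            rw [Nat.choose_eq_zero_of_lt (by omega), Nat.cast_zero, zero_mul]
          rw [h4, Finset.sum_range_succ, Nat.choose_self, Nat.cast_one, one_mul]
          ring
        rw [h3]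
        refine (norm_sub_le_max' _ _).trans (max_le (h1 t) ?_)
        refine norm_sum_le' _ _ hG0 fun j hj => ?_
        have hj' := mem_range.1 hj
        rw [norm_mul]
        calc _ ≤ 1 * G := mul_le_mul (norm_natCast_le_one _) (ih j hj' (by omega))
              (norm_nonneg _) zero_le_one
          _ = G := one_mul _
    have h3 := h2 t₀ (mem_range.1 ht₀)
    linarith
  have hzx : ∀ i ∈ s, ‖z i‖ ≤ 1 := fun i hi => (hy i hi).trans hθ.le
  have hfin := moment_bound s z c hzx hM0 (fun t ht => hmax t (mem_range.2 ht)) hx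
  have he : ∀ i, z x - z i = y x - y i := fun i => by simp only [hz]; ring
  simp only [he] at hfin
  exact hfin.trans hMF

end SP
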