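import Pool.Agent.Lib_helper72.SP.Loc1

/-!
Local lemmas for the characters of a cyclic group of order `p ^ s`.
-/

set_option autoImplicit false

namespace SP

open Finset Polynomial MS RR

variable {p : ℕ} [hp : Fact p.Prime]

/-- roots of unity of `p`-power order are close to `1` -/
theorem unity_lt {z : PadicAlgCl p} {s : ℕ} (hz : z ^ p ^ s = 1) : ‖z - 1‖ < 1 := by
  induction s generalizing z with
  | zero =>
    rw [pow_zero, pow_one] at hz
    rw [hz, sub_self, norm_zero]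
    exact one_pos
  | succ s ih =>
    have h1 : (z ^ p) ^ p ^ s = 1 := by rw [← pow_mul, ← pow_succ']; exact hz
    have h2 := ih h1
    have hz1 : ‖z‖ = 1 := norm_root_of_unity (pow_ne_zero _ hp.out.ne_zero) hz
    have hz2 : ‖z - 1‖ ≤ 1 := (norm_sub_le_max' _ _).trans (by rw [hz1, norm_one, max_self])
    have hpn : ‖(p : PadicAlgCl p)‖ < 1 := by
      rw [norm_p]
      exact inv_lt_one_of_one_lt₀ (by exact_mod_cast hp.out.one_lt)
    have h3 : (z - 1) ^ p = (z ^ p - 1) -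
        ∑ i ∈ (range p).erase 0, (z - 1) ^ i * (p.choose i : PadicAlgCl p) := by
      have h4 : z ^ p = ∑ i ∈ range (p + 1), (z - 1) ^ i * (p.choose i : PadicAlgCl p) := by
        have h5 := add_pow (z - 1) 1 p
        rw [sub_add_cancel] at h5
        rw [h5]
        exact Finset.sum_congr rfl fun i _ => by rw [one_pow, mul_one]
      rw [Finset.sum_range_succ, Nat.choose_self, Nat.cast_one, mul_one,
        ← Finset.add_sum_erase _ _ (mem_range.2 hp.out.pos), pow_zero, Nat.choose_zero_right,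
        Nat.cast_one, one_mul] at h4
      rw [h4]
      ring
    have h6 : ‖∑ i ∈ (range p).erase 0, (z - 1) ^ i * (p.choose i : PadicAlgCl p)‖ ≤
        ‖(p : PadicAlgCl p)‖ := by
      refine MS.norm_sum_le' _ _ (norm_nonneg _) fun i hi => ?_
      rw [mem_erase, mem_range] at hi
      obtain ⟨e, he⟩ := hp.out.dvd_choose_self hi.1 hi.2
      rw [he, Nat.cast_mul, norm_mul, norm_mul, norm_pow]
      have h7 : ‖z - 1‖ ^ i ≤ 1 := pow_le_one₀ (norm_nonneg _) hz2
      have h8 := norm_natCast_le_one (p := p) e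
      calc ‖z - 1‖ ^ i * (‖(p : PadicAlgCl p)‖ * ‖(e : PadicAlgCl p)‖)
          ≤ 1 * (‖(p : PadicAlgCl p)‖ * 1) := by gcongr
        _ = _ := by ring
    have h9 : ‖z - 1‖ ^ p < 1 := by
      rw [← norm_pow, h3]
      exact lt_of_le_of_lt (norm_sub_le_max' _ _) (max_lt h2 (lt_of_le_of_lt h6 hpn))
    by_contra hcon
    rw [not_lt] at hcon
    exact absurd h9 (not_lt.2 (one_le_pow₀ hcon))

/-- roots of unity of `p`-power order are not too close to `1` -/
theorem unity_ge {z : PadicAlgCl p} {s : ℕ} (hz : z ^ p ^ s = 1) (hz1 : z ≠ 1) :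
    Real.exp (-pi0 p) ≤ ‖z - 1‖ := by
  induction s with
  | zero => rw [pow_zero, pow_one] at hz; exact absurd hz hz1
  | succ s ih =>
    by_cases h : z ^ p ^ s = 1
    · exact ih h
    · have h1 : (z ^ p ^ s) ^ p = 1 := by rw [← pow_mul, ← pow_succ]; exact hz
      rw [← norm_zeta_sub_one h1 h]
      exact norm_pow_sub_one_le (norm_root_of_unity (pow_ne_zero _ hp.out.ne_zero) hz).le _

/-- many residue classes with small values -/
theorem good_classes {s : ℕ} (hs : 0 < s) (e : ℕ → ℝ) (he : ∀ k, 1 ≤ e k) {m : ℕ}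
    (hm : 2 * m ≤ p) : ∃ V : Finset ℕ, V.card = m ∧
      (∀ v ∈ V, v < p ^ s ∧ e v ^ p ^ s ≤ (∏ k ∈ range (p ^ s), e k) ^ 2) ∧
      ∀ v ∈ V, ∀ w ∈ V, v ≠ w → v % p ≠ w % p := by
  classical
  set d := p ^ s with hd
  have hd0 : 0 < d := pow_pos hp.out.pos s
  set Q := ∏ k ∈ range d, e k with hQ
  have hQ1 : 1 ≤ Q := by
    rw [hQ]
    exact Finset.prod_induction _ (fun x => (1 : ℝ) ≤ x)
      (fun a b ha hb => one_le_mul_of_one_le_of_one_le ha hb) le_rfl fun k _ => he k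
  set G := (range d).filter fun k => e k ^ d ≤ Q ^ 2 with hG
  set B := (range d).filter fun k => ¬ e k ^ d ≤ Q ^ 2 with hB
  have hGB : G.card + B.card = d := by
    rw [hG, hB, Finset.card_filter_add_card_filter_not, card_range]
  have hB2 : 2 * B.card < d := by
    by_contra hcon
    rw [not_lt] at hcon
    have hBne : B.Nonempty := card_pos.1 (by omega)
    have h1 : ∏ _k ∈ B, Q ^ 2 < ∏ k ∈ B, e k ^ d := by
      refine Finset.prod_lt_prod_of_nonempty (fun k _ => by positivity) (fun k hk => ?_) hBne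
      exact not_le.1 (mem_filter.1 hk).2
    have h2 : ∏ k ∈ B, e k ^ d ≤ ∏ k ∈ range d, e k ^ d := by
      rw [← Finset.prod_sdiff (filter_subset (fun k => ¬ e k ^ d ≤ Q ^ 2) (range d)), ← hB]
      refine le_mul_of_one_le_left (Finset.prod_nonneg fun k _ => ?_) ?_
      · have := he k; positivity
      · exact Finset.prod_induction _ (fun x => (1 : ℝ) ≤ x)
          (fun a b ha hb => one_le_mul_of_one_le_of_one_le ha hb) le_rfl
          fun k _ => one_le_pow₀ (he k)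
    rw [Finset.prod_const, ← pow_mul] at h1
    rw [Finset.prod_pow (range d), ← hQ] at h2
    have h3 : Q ^ d ≤ Q ^ (2 * B.card) := pow_le_pow_right₀ hQ1 hcon
    linarith
  -- the residue classes
  set U := G.image fun k => k % p with hU
  have hfib : G.card ≤ p ^ (s - 1) * U.card := by
    refine Finset.card_le_mul_card_image G (p ^ (s - 1)) fun r _ => ?_
    have h1 : ∀ k ∈ G.filter (fun k => k % p = r), k / p ∈ range (p ^ (s - 1)) := by
      intro k hk
      have hk1 := (mem_filter.1 (mem_filter.1 hk).1).1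
      rw [mem_range] at hk1 ⊢
      rw [Nat.div_lt_iff_lt_mul hp.out.pos, ← pow_succ, Nat.sub_add_cancel hs]
      exact hk1
    have h2 := Finset.card_le_card_of_injOn (s := G.filter fun k => k % p = r)
      (t := range (p ^ (s - 1))) (fun k => k / p) h1 ?_
    · rwa [card_range] at h2
    · intro k hk k' hk' hkk
      have e1 := (mem_filter.1 (mem_coe.1 hk)).2
      have e2 := (mem_filter.1 (mem_coe.1 hk')).2
      have hkk' : k / p = k' / p := hkk
      rw [← Nat.div_add_mod k p, ← Nat.div_add_mod k' p, e1, e2, hkk']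
  have hUm : m ≤ U.card := by
    have hds : p * p ^ (s - 1) = d := by rw [← pow_succ', Nat.sub_add_cancel hs]
    have h1 : p * p ^ (s - 1) < 2 * (p ^ (s - 1) * U.card) := by rw [hds]; omega
    have h2 : p * p ^ (s - 1) < (2 * U.card) * p ^ (s - 1) := by
      rw [mul_comm (p ^ (s - 1)) U.card, ← mul_assoc] at h1
      exact h1
    have h3 := lt_of_mul_lt_mul_right h2 (Nat.zero_le _)
    omega
  obtain ⟨U', hU', hU'c⟩ := Finset.exists_subset_card_eq hUm
  have hch : ∀ r : ℕ, ∃ k : ℕ, r ∈ U' → k ∈ G ∧ k % p = r := by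
    intro r
    by_cases hr : r ∈ U'
    · obtain ⟨k, hk, hkr⟩ := mem_image.1 (hU' hr)
      exact ⟨k, fun _ => ⟨hk, hkr⟩⟩
    · exact ⟨0, fun h => absurd h hr⟩
  choose f hf using hch
  refine ⟨U'.image f, ?_, ?_, ?_⟩
  · rw [Finset.card_image_of_injOn, hU'c]
    intro r hr r' hr' hrr
    rw [← (hf r hr).2, ← (hf r' hr').2, hrr]
  · intro v hv
    obtain ⟨r, hr, rfl⟩ := mem_image.1 hv
    have h1 := mem_filter.1 (hf r hr).1
    exact ⟨mem_range.1 h1.1, h1.2⟩
  · intro v hv w hw hvw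
    obtain ⟨r, hr, rfl⟩ := mem_image.1 hv
    obtain ⟨r', hr', rfl⟩ := mem_image.1 hw
    rw [(hf r hr).2, (hf r' hr').2]
    rintro rfl
    exact hvw rfl

theorem norm_cast_sub {v w : ℕ} (h : v % p ≠ w % p) : ‖(v : PadicAlgCl p) - w‖ = 1 := by
  wlog hvw : w ≤ v generalizing v w
  · rw [norm_sub_rev]
    exact this (Ne.symm h) (by omega)
  · rw [← Nat.cast_sub hvw]
    apply norm_natCast_prime
    intro hdvd
    exact h ((Nat.modEq_iff_dvd' hvw).2 hdvd).symm

/-- a nontrivial value -/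
theorem char_ne_one {d : ℕ} [NeZero d] {K : Type*} [Field K] [CharZero K]
    {ψ : AddChar (ZMod d) K} (ho : Orth ψ) {x : ZMod d} (hx : x ≠ 0) : ψ x ≠ 1 := by
  intro h
  have h1 := ho x hx
  have h2 : ∀ k : ZMod d, ψ (k * x) = 1 := by
    intro k
    have e : k * x = k.val • x := by rw [nsmul_eq_mul, ZMod.natCast_zmod_val]
    rw [e, AddChar.map_nsmul_eq_pow, h, one_pow]
  simp only [h2, Finset.sum_const, Finset.card_univ, ZMod.card, nsmul_eq_mul, mul_one] at h1
  exact NeZero.ne d (by exact_mod_cast h1)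

theorem char_pow' {d : ℕ} {K : Type*} [Field K] (ψ : AddChar (ZMod d) K) (x : ZMod d) :
    ψ x ^ d = 1 := by
  rw [← AddChar.map_nsmul_eq_pow, nsmul_eq_mul, ZMod.natCast_self, zero_mul,
    AddChar.map_zero_eq_one]

/-- **The local lemma.** -/
theorem local_sparse {s : ℕ} (hs : 0 < s) {d : ℕ} [NeZero d] (hd : d = p ^ s)
    {ψ : AddChar (ZMod d) (PadicAlgCl p)} (ho : Orth ψ) (a : ZMod d → PadicAlgCl p)
    {ρ : ℝ} (hρ : 1 ≤ ρ) {m : ℕ} (hm : 1 ≤ m) (hmp : 2 * m ≤ p) (Z : Finset (ZMod d))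
    (hZ : Z.card ≤ m) (ha : ∀ x ∉ Z, ‖a x‖ ≤ ρ) (x : ZMod d) :
    ‖a x‖ ^ d ≤ (ρ * Real.exp (((m : ℝ) - 1) * pi0 p)) ^ d *
      (∏ k, max 1 ‖bk ψ a k‖) ^ 2 := by
  classical
  have hρ0 : 0 ≤ ρ := zero_le_one.trans hρ
  have hpi := pi0_pos p
  have hm1 : (0 : ℝ) ≤ (m : ℝ) - 1 := by
    have : (1 : ℝ) ≤ m := by exact_mod_cast hm
    linarith
  have hexp : 1 ≤ Real.exp (((m : ℝ) - 1) * pi0 p) := Real.one_le_exp (by positivity)
  have hprod : 1 ≤ ∏ k, max 1 ‖bk ψ a k‖ := Finset.prod_induction _ (fun x => (1 : ℝ) ≤ x)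
    (fun a b ha hb => one_le_mul_of_one_le_of_one_le ha hb) le_rfl fun k _ => le_max_left _ _
  have hψ1 : ∀ y : ZMod d, ‖ψ y‖ = 1 := fun y =>
    norm_root_of_unity (NeZero.ne d) (char_pow' ψ y)
  by_cases hx : x ∉ Z
  · calc ‖a x‖ ^ d ≤ ρ ^ d := pow_le_pow_left₀ (norm_nonneg _) (ha x hx) _
      _ ≤ (ρ * Real.exp (((m : ℝ) - 1) * pi0 p)) ^ d :=
        pow_le_pow_left₀ hρ0 (le_mul_of_one_le_right hρ0 hexp) _
      _ ≤ _ := le_mul_of_one_le_right (by positivity) (one_le_pow₀ hprod)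
  rw [not_not] at hx
  -- the bound for the sums over `Z`
  have hE : ∀ k : ZMod d, ‖∑ i ∈ Z, a i * ψ (k * i)‖ ≤ ρ * max 1 ‖bk ψ a k‖ := by
    intro k
    have h1 : ∑ i ∈ Z, a i * ψ (k * i) = bk ψ a k - ∑ i ∈ Zᶜ, a i * ψ (k * i) := by
      unfold bk
      rw [← Finset.sum_add_sum_compl Z]
      ring
    rw [h1]
    refine (norm_sub_le_max' _ _).trans (max_le ?_ ?_)
    · calc ‖bk ψ a k‖ ≤ 1 * max 1 ‖bk ψ a k‖ := by rw [one_mul]; exact le_max_right _ _
        _ ≤ _ := mul_le_mul_of_nonneg_right hρ (zero_le_one.trans (le_max_left _ _))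
    · refine (MS.norm_sum_le' _ _ hρ0 fun i hi => ?_).trans
        (le_mul_of_one_le_right hρ0 (le_max_left _ _))
      rw [norm_mul, hψ1, mul_one]
      exact ha i (mem_compl.1 hi)
  have hval : ∀ (k : ℕ) (i : ZMod d), ψ ((k : ZMod d) * i) = ψ i ^ k := by
    intro k i
    rw [← nsmul_eq_mul, AddChar.map_nsmul_eq_pow]
  obtain ⟨V, hVc, hV1, hV2⟩ := good_classes (p := p) hs
    (fun k => max 1 ‖bk ψ a (k : ZMod d)‖) (fun k => le_max_left _ _) (m := Z.card) (by omega)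
  beta_reduce at hV1
  rw [← hd] at hV1
  have hVne : V.Nonempty := card_pos.1 (by rw [hVc]; exact card_pos.2 ⟨x, hx⟩)
  obtain ⟨v₀, hv₀, hmax⟩ := Finset.exists_max_image V (fun v => max 1 ‖bk ψ a (v : ZMod d)‖) hVne
  set μ := max 1 ‖bk ψ a (v₀ : ZMod d)‖ with hμ
  have hμ0 : 0 ≤ μ := zero_le_one.trans (le_max_left _ _)
  have hcl := classes_bound Z (fun i => ψ i) a (θ := Finset.univ.sup' ⟨0, mem_univ _⟩
      (fun i : ZMod d => ‖ψ i - 1‖))
    (by
      rw [Finset.sup'_lt_iff]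
      intro i _
      refine unity_lt (s := s) ?_
      rw [← hd]
      exact char_pow' ψ i)
    (fun i _ => Finset.le_sup' (fun i : ZMod d => ‖ψ i - 1‖) (mem_univ i))
    V hVc (fun v hv w hw hvw => norm_cast_sub (hV2 v hv w hw hvw)) (F := ρ * μ)
    (by positivity)
    (fun v hv => by
      have h1 := hE (v : ZMod d)
      simp only [hval] at h1
      exact h1.trans (mul_le_mul_of_nonneg_left (hmax v hv) hρ0)) hx
  beta_reduce at hcl
  have hlow : Real.exp (-(((m : ℝ) - 1) * pi0 p)) ≤ ∏ i ∈ Z.erase x, ‖ψ x - ψ i‖ := by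
    have h1 : ∀ i ∈ Z.erase x, Real.exp (-pi0 p) ≤ ‖ψ x - ψ i‖ := by
      intro i hi
      have hne : x - i ≠ 0 := sub_ne_zero.2 (ne_of_mem_erase hi).symm
      have e1 : ψ x - ψ i = ψ i * (ψ (x - i) - 1) := by
        rw [mul_sub, mul_one, ← AddChar.map_add_eq_mul, add_sub_cancel]
      rw [e1, norm_mul, hψ1, one_mul]
      refine unity_ge (s := s) ?_ (char_ne_one ho hne)
      rw [← hd]
      exact char_pow' ψ _
    calc Real.exp (-(((m : ℝ) - 1) * pi0 p)) ≤ Real.exp (-pi0 p) ^ (Z.erase x).card := by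
          rw [← Real.exp_nat_mul, Real.exp_le_exp]
          have h2 : ((Z.erase x).card : ℝ) ≤ (m : ℝ) - 1 := by
            have h3 : (Z.erase x).card + 1 = Z.card := card_erase_add_one hx
            have h4 : ((Z.erase x).card : ℝ) + 1 ≤ m := by exact_mod_cast (by omega)
            linarith
          have := mul_le_mul_of_nonneg_right h2 hpi.le
          linarith
      _ = ∏ _i ∈ Z.erase x, Real.exp (-pi0 p) := by rw [Finset.prod_const]
      _ ≤ _ := Finset.prod_le_prod (fun _ _ => (Real.exp_pos _).le) h1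
  have hax : ‖a x‖ ≤ ρ * Real.exp (((m : ℝ) - 1) * pi0 p) * μ := by
    have h1 : ‖a x‖ * Real.exp (-(((m : ℝ) - 1) * pi0 p)) ≤ ρ * μ :=
      (mul_le_mul_of_nonneg_left hlow (norm_nonneg _)).trans hcl
    rw [Real.exp_neg, ← div_eq_mul_inv, div_le_iff₀ (Real.exp_pos _)] at h1
    linarith
  have hμd : μ ^ d ≤ (∏ k, max 1 ‖bk ψ a k‖) ^ 2 := by
    have h1 := (hV1 v₀ hv₀).2
    have h2 : ∏ k ∈ range d, max 1 ‖bk ψ a (k : ZMod d)‖ = ∏ k, max 1 ‖bk ψ a k‖ := by
      have h3 : ∀ k : ZMod d, max 1 ‖bk ψ a k‖ = max 1 ‖bk ψ a ((k.val : ℕ) : ZMod d)‖ := by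
        intro k
        rw [ZMod.natCast_zmod_val]
      rw [Finset.prod_congr rfl fun k _ => h3 k]
      obtain ⟨e, rfl⟩ := Nat.exists_eq_succ_of_ne_zero (NeZero.ne d)
      exact (Fin.prod_univ_eq_prod_range
        (fun k => max 1 ‖bk ψ a ((k : ℕ) : ZMod (e + 1))‖) (e + 1)).symm
    rw [h2] at h1
    exact h1
  calc ‖a x‖ ^ d ≤ (ρ * Real.exp (((m : ℝ) - 1) * pi0 p) * μ) ^ d :=
        pow_le_pow_left₀ (norm_nonneg _) hax _
    _ = (ρ * Real.exp (((m : ℝ) - 1) * pi0 p)) ^ d * μ ^ d := mul_pow _ _ _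
    _ ≤ _ := mul_le_mul_of_nonneg_left hμd (by positivity)

end SP
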