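import Pool.Agent.Lib_helper72.RR.ThmA2

/-!
The main inequality with local losses at the primes dividing `d`.
-/

set_option autoImplicit false

namespace SP

open Matrix Finset MS RR

/-- a rational number which is integral outside of a finite set of primes -/
theorem rat_lower (P : Finset ℕ) (hP : ∀ l ∈ P, l.Prime) (B : ℕ → ℝ) (hB : ∀ l, 1 ≤ B l)
    (r : ℚ) (hr : r ≠ 0) (h1 : ∀ (l : ℕ) [Fact l.Prime], l ∉ P → ‖(r : ℚ_[l])‖ ≤ 1)
    (h2 : ∀ (l : ℕ) [Fact l.Prime], l ∈ P → ‖(r : ℚ_[l])‖ ≤ B l) :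
    1 ≤ |(r : ℝ)| * ∏ l ∈ P, B l := by
  classical
  induction P using Finset.induction_on generalizing r with
  | empty =>
    obtain ⟨m, hm⟩ := rat_int (r := r) fun l hl => h1 l (by simp)
    have hm0 : m ≠ 0 := by
      rintro rfl
      exact hr (by rw [hm]; simp)
    have h3 := Int.one_le_abs hm0
    rw [hm, Finset.prod_empty, mul_one]
    push_cast
    exact_mod_cast h3
  | insert l P hl ih =>
    have hlp : l.Prime := hP l (mem_insert_self _ _)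
    have : Fact l.Prime := ⟨hlp⟩
    have hl0 : (0 : ℝ) < l := by exact_mod_cast hlp.pos
    have hrl : (r : ℚ_[l]) ≠ 0 := by exact_mod_cast hr
    set v := (r : ℚ_[l]).valuation with hv
    have hnorm : ‖(r : ℚ_[l])‖ = (l : ℝ) ^ (-v) := Padic.norm_eq_zpow_neg_valuation hrl
    set e := (-v).toNat with he
    have hle : (l : ℝ) ^ e ≤ B l := by
      rcases le_or_gt v 0 with hv0 | hv0
      · have h3 : ((e : ℕ) : ℤ) = -v := Int.toNat_of_nonneg (by omega)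
        have h4 : (l : ℝ) ^ e = ‖(r : ℚ_[l])‖ := by
          rw [hnorm, ← h3, zpow_natCast]
        rw [h4]
        exact h2 l (mem_insert_self _ _)
      · have h3 : e = 0 := by rw [he]; exact Int.toNat_of_nonpos (by omega)
        rw [h3, pow_zero]
        exact hB l
    set r' : ℚ := r * (l : ℚ) ^ e with hr'
    have hr'0 : r' ≠ 0 := mul_ne_zero hr (pow_ne_zero _ (by exact_mod_cast hlp.ne_zero))
    have h5 := ih (fun q hq => hP q (mem_insert_of_mem hq)) r' hr'0 (by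
      intro q hq hqP
      have hcast : ((r' : ℚ) : ℚ_[q]) = (r : ℚ_[q]) * ((l : ℕ) : ℚ_[q]) ^ e := by
        rw [hr']; push_cast; rfl
      rw [hcast, norm_mul, norm_pow]
      by_cases hql : q = l
      · subst hql
        rw [hnorm, Padic.norm_p, inv_pow, ← zpow_natCast, ← _root_.zpow_neg, ← zpow_add₀ hl0.ne']
        refine zpow_le_one_of_nonpos₀ (by exact_mod_cast hlp.one_lt.le) ?_
        have := Int.self_le_toNat (-v)
        omega
      · have h6 : ‖((l : ℕ) : ℚ_[q])‖ = 1 := Padic.norm_natCast_eq_one_iff.2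
          ((Nat.coprime_primes hq.out hlp).2 hql)
        rw [h6, one_pow, mul_one]
        exact h1 q (by
          rw [mem_insert]
          rintro (h | h)
          · exact hql h
          · exact hqP h)) (by
      intro q hq hqP
      have hql : q ≠ l := by rintro rfl; exact hl hqP
      have hcast : ((r' : ℚ) : ℚ_[q]) = (r : ℚ_[q]) * ((l : ℕ) : ℚ_[q]) ^ e := by
        rw [hr']; push_cast; rfl
      have h6 : ‖((l : ℕ) : ℚ_[q])‖ = 1 := Padic.norm_natCast_eq_one_iff.2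
          ((Nat.coprime_primes hq.out hlp).2 hql)
      rw [hcast, norm_mul, norm_pow, h6, one_pow, mul_one]
      exact h2 q (mem_insert_of_mem hqP))
    rw [Finset.prod_insert hl]
    have hcast : ((r' : ℚ) : ℝ) = (r : ℝ) * (l : ℝ) ^ e := by rw [hr']; push_cast; rfl
    rw [hcast, abs_mul, abs_pow, abs_of_pos hl0] at h5
    have hprod : 0 ≤ ∏ q ∈ P, B q := Finset.prod_nonneg fun q _ => zero_le_one.trans (hB q)
    calc (1 : ℝ) ≤ |(r : ℝ)| * (l : ℝ) ^ e * ∏ q ∈ P, B q := h5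
      _ ≤ |(r : ℝ)| * B l * ∏ q ∈ P, B q := by gcongr
      _ = _ := by ring

section

variable {E : Type*} [Field E] [Algebra ℚ E] [FiniteDimensional ℚ E] {d : ℕ} [NeZero d]

theorem one_le_prod' {ι : Type*} (s : Finset ι) (f : ι → ℝ) : 1 ≤ ∏ i ∈ s, max 1 (f i) :=
  Finset.prod_induction _ (fun x => (1 : ℝ) ≤ x)
    (fun _ _ ha hb => one_le_mul_of_one_le_of_one_le ha hb) le_rfl fun _ _ => le_max_left _ _

/-- bounds for the entries and for the determinants -/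
theorem det_of_entries {l : ℕ} [Fact l.Prime] (a : ZMod d → PadicAlgCl l) {B : ℝ} (hB : 1 ≤ B)
    (h : ∀ x, ‖a x‖ ^ d ≤ B) (J : Finset (ZMod d)) (π : Equiv.Perm (ZMod d)) :
    ‖(XM a J π).det‖ ≤ B := by
  obtain ⟨x₀, -, hx₀⟩ := Finset.exists_max_image (univ : Finset (ZMod d))
    (fun x => ‖a x‖) ⟨0, mem_univ _⟩
  set M := max 1 ‖a x₀‖ with hM
  have hM1 : 1 ≤ M := le_max_left _ _
  have hMd : M ^ d ≤ B := by
    rcases max_choice 1 ‖a x₀‖ with h' | h'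
    · rw [hM, h', one_pow]
      exact hB
    · rw [hM, h']
      exact h x₀
  refine le_trans ?_ hMd
  have h3 := norm_det_le (hna l) (XM a J π) (fun _ => M)
    (fun _ => zero_le_one.trans hM1) (fun i j => by
      simp only [XM, Matrix.of_apply]
      split_ifs
      · exact (hx₀ _ (mem_univ _)).trans (le_max_right _ _)
      · rw [norm_one]; exact hM1
      · rw [norm_zero]; exact zero_le_one.trans hM1)
  rw [Finset.prod_const, Finset.card_univ, ZMod.card] at h3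
  exact h3

/-- the main inequality -/
theorem main_bound' {ψ : AddChar (ZMod d) E} (ho : Orth ψ) (a : ZMod d → E) {κ : ℕ} (hκ : 1 ≤ κ)
    (D : ℕ → ℝ) (hD : ∀ l, 1 ≤ D l)
    (J : Finset (ZMod d)) (π : Equiv.Perm (ZMod d))
    (hloc : ∀ (l : ℕ) [Fact l.Prime], l ∣ d → ∀ τ : E →ₐ[ℚ] PadicAlgCl l,
      ‖(XM (fun x => τ (a x)) J π).det‖ ≤ D l ^ d * (∏ k, max 1 ‖τ (bk ψ a k)‖) ^ κ)
    (hdet : (XM a J π).det ≠ 0) :
    ∑ τ : E →ₐ[ℚ] ℂ, ∑ j ∈ J, ∑ i ∈ Jᶜ, bet (tch τ ψ) (fun l => τ (a l)) (π i - j) ≤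
      2 * (κ * (Module.finrank ℚ E * ∑ k, ht (bk ψ a k)) +
        Module.finrank ℚ E * (d * ∑ l ∈ d.primeFactors, Real.log (D l))) := by
  have hdpos : 0 < d := NeZero.pos d
  set y := (XM a J π).det with hy
  choose C hC hCinf hCfin using fun k : ZMod d => ht_key (bk ψ a k)
  set n := Module.finrank ℚ E with hn
  set r : ℚ := (∏ k, (C k : ℚ)) ^ κ * Algebra.norm ℚ y with hr
  have hnorm0 : Algebra.norm ℚ y ≠ 0 := Algebra.norm_ne_zero_iff.2 hdet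
  have hCne : ∀ k, (C k : ℚ) ≠ 0 := fun k => by exact_mod_cast (hC k).ne'
  have hr0 : r ≠ 0 := mul_ne_zero (pow_ne_zero _ (Finset.prod_ne_zero_iff.2 fun k _ => hCne k))
    hnorm0
  have hnl : ∀ (l : ℕ) [Fact l.Prime], ‖(r : ℚ_[l])‖ =
      (∏ k, ‖(C k : ℚ_[l])‖) ^ κ * ∏ τ : E →ₐ[ℚ] PadicAlgCl l, ‖τ y‖ := by
    intro l hl
    have h1 : ‖((Algebra.norm ℚ y : ℚ) : ℚ_[l])‖ = ∏ τ : E →ₐ[ℚ] PadicAlgCl l, ‖τ y‖ := by
      rw [← norm_ratCast, ← norm_prod, ← Algebra.norm_eq_prod_embeddings ℚ (PadicAlgCl l) y,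
        eq_ratCast]
    rw [hr]
    push_cast
    rw [norm_mul, norm_pow, norm_prod, h1]
  have hC1 : ∀ (l : ℕ) [Fact l.Prime], ∏ k, ‖(C k : ℚ_[l])‖ ≤ 1 := by
    intro l hl
    refine Finset.prod_le_one (fun _ _ => norm_nonneg _) fun k _ => ?_
    have h4 : ((C k : ℕ) : ℚ_[l]) = ((C k : ℤ) : ℚ_[l]) := by simp
    rw [h4]
    exact Padic.norm_int_le_one _
  have hfin : ∀ (l : ℕ) [Fact l.Prime], (∏ k, ‖(C k : ℚ_[l])‖) *
      ∏ τ : E →ₐ[ℚ] PadicAlgCl l, ∏ k, max 1 ‖τ (bk ψ a k)‖ = 1 := by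
    intro l hl
    rw [Finset.prod_comm, ← Finset.prod_mul_distrib]
    exact Finset.prod_eq_one fun k _ => hCfin k l
  have hlow : 1 ≤ |(r : ℝ)| * ∏ l ∈ d.primeFactors, D l ^ (d * n) := by
    refine rat_lower d.primeFactors (fun l hl => Nat.prime_of_mem_primeFactors hl)
      (fun l => D l ^ (d * n)) (fun l => one_le_pow₀ (hD l)) r hr0 ?_ ?_
    · intro l hl hld
      have hld' : ¬ l ∣ d := fun h => hld (Nat.mem_primeFactors.2 ⟨hl.out, h, hdpos.ne'⟩)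
      have hd1 : ‖(d : PadicAlgCl l)‖ = 1 := norm_natCast_prime hld'
      have h2 : ∏ τ : E →ₐ[ℚ] PadicAlgCl l, ‖τ y‖ ≤
          ∏ τ : E →ₐ[ℚ] PadicAlgCl l, ∏ k, max 1 ‖τ (bk ψ a k)‖ := by
        refine Finset.prod_le_prod (fun _ _ => norm_nonneg _) fun τ _ => ?_
        rw [hy, ← det_tch]
        have h3 := non_prod (hna l) (orth_tch τ ho) hd1 (fun l => τ (a l)) J π
        simpa only [bk_tch] using h3
      rw [hnl l]
      calc (∏ k, ‖(C k : ℚ_[l])‖) ^ κ * ∏ τ : E →ₐ[ℚ] PadicAlgCl l, ‖τ y‖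
          ≤ (∏ k, ‖(C k : ℚ_[l])‖) ^ κ *
            ∏ τ : E →ₐ[ℚ] PadicAlgCl l, ∏ k, max 1 ‖τ (bk ψ a k)‖ :=
              mul_le_mul_of_nonneg_left h2 (pow_nonneg
                (Finset.prod_nonneg fun _ _ => norm_nonneg _) _)
        _ ≤ (∏ k, ‖(C k : ℚ_[l])‖) ^ 1 *
            ∏ τ : E →ₐ[ℚ] PadicAlgCl l, ∏ k, max 1 ‖τ (bk ψ a k)‖ := by
              refine mul_le_mul_of_nonneg_right (pow_le_pow_of_le_one
                (Finset.prod_nonneg fun _ _ => norm_nonneg _) (hC1 l) hκ) ?_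
              exact Finset.prod_nonneg fun _ _ => zero_le_one.trans (one_le_prod' _ _)
        _ = 1 := by rw [pow_one]; exact hfin l
    · intro l hl hld
      have hld' : l ∣ d := Nat.dvd_of_mem_primeFactors hld
      have hD0 : 0 ≤ D l := zero_le_one.trans (hD l)
      have h2 : ∀ τ : E →ₐ[ℚ] PadicAlgCl l, ‖τ y‖ ≤
          D l ^ d * (∏ k, max 1 ‖τ (bk ψ a k)‖) ^ κ := by
        intro τ
        rw [hy, ← det_tch]
        exact hloc l hld' τ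
      rw [hnl l]
      have h3 : ∏ τ : E →ₐ[ℚ] PadicAlgCl l, ‖τ y‖ ≤ D l ^ (d * n) *
          (∏ τ : E →ₐ[ℚ] PadicAlgCl l, ∏ k, max 1 ‖τ (bk ψ a k)‖) ^ κ := by
        calc ∏ τ : E →ₐ[ℚ] PadicAlgCl l, ‖τ y‖
            ≤ ∏ τ : E →ₐ[ℚ] PadicAlgCl l, (D l ^ d * (∏ k, max 1 ‖τ (bk ψ a k)‖) ^ κ) :=
              Finset.prod_le_prod (fun _ _ => norm_nonneg _) fun τ _ => h2 τ
          _ = _ := by
              rw [Finset.prod_mul_distrib, Finset.prod_const, Finset.card_univ, card_emb,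
                ← hn, ← pow_mul, Finset.prod_pow]
      calc (∏ k, ‖(C k : ℚ_[l])‖) ^ κ * ∏ τ : E →ₐ[ℚ] PadicAlgCl l, ‖τ y‖
          ≤ (∏ k, ‖(C k : ℚ_[l])‖) ^ κ * (D l ^ (d * n) *
          (∏ τ : E →ₐ[ℚ] PadicAlgCl l, ∏ k, max 1 ‖τ (bk ψ a k)‖) ^ κ) :=
            mul_le_mul_of_nonneg_left h3 (pow_nonneg
                (Finset.prod_nonneg fun _ _ => norm_nonneg _) _)
        _ = D l ^ (d * n) * ((∏ k, ‖(C k : ℚ_[l])‖) *
          ∏ τ : E →ₐ[ℚ] PadicAlgCl l, ∏ k, max 1 ‖τ (bk ψ a k)‖) ^ κ := by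
            rw [mul_pow]; ring
        _ = D l ^ (d * n) := by rw [hfin l, one_pow, mul_one]
  -- the archimedean absolute value
  set T : (E →ₐ[ℚ] ℂ) → ℝ := fun τ =>
    ∑ j ∈ J, ∑ i ∈ Jᶜ, bet (tch τ ψ) (fun l => τ (a l)) (π i - j) with hT
  have hup : |(r : ℝ)| ^ 2 ≤ Real.exp (2 * (κ * (n * ∑ k, ht (bk ψ a k))) - ∑ τ, T τ) := by
    have h1 : |(r : ℝ)| = ‖((r : ℚ) : ℂ)‖ := by simp
    have h2 : ‖((Algebra.norm ℚ y : ℚ) : ℂ)‖ = ∏ τ : E →ₐ[ℚ] ℂ, ‖τ y‖ := by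
      rw [← norm_prod, ← Algebra.norm_eq_prod_embeddings ℚ ℂ y, eq_ratCast]
    have h3 : ∀ τ : E →ₐ[ℚ] ℂ, ‖τ y‖ ^ 2 ≤ (∏ k, max 1 ‖τ (bk ψ a k)‖) ^ 2 *
        Real.exp (-T τ) := by
      intro τ
      rw [hy, ← det_tch]
      have := arch (orth_tch τ ho) (fun l => τ (a l)) J π
      simpa only [bk_tch] using this
    have hone : 1 ≤ ∏ τ : E →ₐ[ℚ] ℂ, ∏ k, max 1 ‖τ (bk ψ a k)‖ :=
      Finset.prod_induction _ (fun x => (1 : ℝ) ≤ x)
        (fun _ _ ha hb => one_le_mul_of_one_le_of_one_le ha hb) le_rfl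
        fun _ _ => one_le_prod' _ _
    have hCn : 0 ≤ ∏ k, ‖(C k : ℂ)‖ := Finset.prod_nonneg fun _ _ => norm_nonneg _
    rw [h1, hr]
    push_cast
    rw [norm_mul, norm_pow, norm_prod, h2, mul_pow,
      ← Finset.prod_pow univ _ (fun τ : E →ₐ[ℚ] ℂ => ‖τ y‖)]
    calc ((∏ k, ‖(C k : ℂ)‖) ^ κ) ^ 2 * ∏ τ : E →ₐ[ℚ] ℂ, ‖τ y‖ ^ 2
        ≤ ((∏ k, ‖(C k : ℂ)‖) ^ κ) ^ 2 *
            ∏ τ : E →ₐ[ℚ] ℂ, ((∏ k, max 1 ‖τ (bk ψ a k)‖) ^ 2 * Real.exp (-T τ)) := by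
          refine mul_le_mul_of_nonneg_left ?_ (by positivity)
          exact Finset.prod_le_prod (fun _ _ => by positivity) fun τ _ => h3 τ
      _ = ((∏ k, ‖(C k : ℂ)‖) ^ κ) ^ 2 *
            ((∏ τ : E →ₐ[ℚ] ℂ, ∏ k, max 1 ‖τ (bk ψ a k)‖) ^ 1) ^ 2 *
            Real.exp (-∑ τ, T τ) := by
          rw [Finset.prod_mul_distrib, Finset.prod_pow, ← Real.exp_sum, Finset.sum_neg_distrib,
            pow_one]
          ring
      _ ≤ ((∏ k, ‖(C k : ℂ)‖) ^ κ) ^ 2 *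
            ((∏ τ : E →ₐ[ℚ] ℂ, ∏ k, max 1 ‖τ (bk ψ a k)‖) ^ κ) ^ 2 *
            Real.exp (-∑ τ, T τ) := by
          have h4 := pow_le_pow_right₀ hone hκ
          gcongr
      _ = ((∏ k, (C k * ∏ τ : E →ₐ[ℚ] ℂ, max 1 ‖τ (bk ψ a k)‖)) ^ κ) ^ 2 *
          Real.exp (-∑ τ, T τ) := by
          rw [Finset.prod_comm, Finset.prod_mul_distrib]
          simp only [RCLike.norm_natCast]
          ring
      _ = Real.exp (2 * (κ * (n * ∑ k, ht (bk ψ a k))) - ∑ τ, T τ) := by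
          have h4 : ∀ k, (C k * ∏ τ : E →ₐ[ℚ] ℂ, max 1 ‖τ (bk ψ a k)‖) =
              Real.exp (n * ht (bk ψ a k)) := fun k => (hCinf k).symm
          simp only [h4]
          rw [← Real.exp_sum, ← Finset.mul_sum, ← Real.exp_nat_mul, ← Real.exp_nat_mul,
            ← Real.exp_add]
          congr 1
  have hDprod : (∏ l ∈ d.primeFactors, D l ^ (d * n)) =
      Real.exp (n * (d * ∑ l ∈ d.primeFactors, Real.log (D l))) := by
    have h1 : ∀ l ∈ d.primeFactors, D l ^ (d * n) = Real.exp ((n * d : ℝ) * Real.log (D l)) := by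
      intro l _
      have hDl : 0 < D l := lt_of_lt_of_le one_pos (hD l)
      have h2 : ((n * d : ℝ)) = ((d * n : ℕ) : ℝ) := by push_cast; ring
      rw [h2, Real.exp_nat_mul, Real.exp_log hDl]
    rw [Finset.prod_congr rfl h1, ← Real.exp_sum, ← Finset.mul_sum]
    congr 1
    ring
  rw [hDprod] at hlow
  have h5 : (1 : ℝ) ≤ Real.exp (2 * (κ * (n * ∑ k, ht (bk ψ a k))) - ∑ τ, T τ) *
      Real.exp (n * (d * ∑ l ∈ d.primeFactors, Real.log (D l))) ^ 2 := by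
    calc (1 : ℝ) ≤ (|(r : ℝ)| * Real.exp (n * (d * ∑ l ∈ d.primeFactors, Real.log (D l)))) ^ 2 :=
          one_le_pow₀ hlow
      _ = |(r : ℝ)| ^ 2 * Real.exp (n * (d * ∑ l ∈ d.primeFactors, Real.log (D l))) ^ 2 :=
          mul_pow _ _ _
      _ ≤ _ := mul_le_mul_of_nonneg_right hup (by positivity)
  rw [← Real.exp_nat_mul, ← Real.exp_add, Real.one_le_exp_iff] at h5
  push_cast at h5
  linarith

theorem main_bb' {ψ : AddChar (ZMod d) E} (ho : Orth ψ) (a : ZMod d → E) {κ : ℕ} (hκ : 1 ≤ κ)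
    (D : ℕ → ℝ) (hD : ∀ l, 1 ≤ D l)
    {h : ℝ} (hh : ∀ k, ht (bk ψ a k) = h)
    (J : Finset (ZMod d)) (π : Equiv.Perm (ZMod d))
    (hloc : ∀ (l : ℕ) [Fact l.Prime], l ∣ d → ∀ τ : E →ₐ[ℚ] PadicAlgCl l,
      ‖(XM (fun x => τ (a x)) J π).det‖ ≤ D l ^ d * (∏ k, max 1 ‖τ (bk ψ a k)‖) ^ κ)
    (hdet : (XM a J π).det ≠ 0) :
    ∑ j ∈ J, ∑ i ∈ Jᶜ, bb ψ a (π i - j) ≤
      2 * (d * (κ * h + ∑ l ∈ d.primeFactors, Real.log (D l))) := by
  have hn : (0 : ℝ) < Module.finrank ℚ E := finrank_pos'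
  have h1 := main_bound' ho a hκ D hD J π hloc hdet
  simp only [hh, Finset.sum_const, Finset.card_univ, ZMod.card, nsmul_eq_mul] at h1
  unfold bb
  simp only [← Finset.sum_div]
  rw [div_le_iff₀ hn]
  have h2 : ∑ j ∈ J, ∑ i ∈ Jᶜ, ∑ τ : E →ₐ[ℚ] ℂ, bet (tch τ ψ) (fun l => τ (a l)) (π i - j) =
      ∑ τ : E →ₐ[ℚ] ℂ, ∑ j ∈ J, ∑ i ∈ Jᶜ, bet (tch τ ψ) (fun l => τ (a l)) (π i - j) := by
    rw [Finset.sum_comm (s := univ) (t := J)]
    exact Finset.sum_congr rfl fun j _ => Finset.sum_comm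
  rw [h2]
  linarith

end

/-! ### over an algebraic closure -/

section closure

universe u

variable {Ω : Type u} [Field Ω] [Algebra ℚ Ω] [Algebra.IsAlgebraic ℚ Ω]

/-- the main inequality over `Ω` -/
theorem main_omega' {d : ℕ} [NeZero d] {ψ : AddChar (ZMod d) Ω} (ho : Orth ψ) (a : ZMod d → Ω)
    {κ : ℕ} (hκ : 1 ≤ κ) (D : ℕ → ℝ) (hD : ∀ l, 1 ≤ D l)
    (hloc : ∀ (l : ℕ) [Fact l.Prime], l ∣ d → ∀ τ : Ω →+* PadicAlgCl l,
      ∀ (J : Finset (ZMod d)) (π : Equiv.Perm (ZMod d)),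
      ‖(XM (fun x => τ (a x)) J π).det‖ ≤ D l ^ d * (∏ k, max 1 ‖τ (bk ψ a k)‖) ^ κ)
    (hb : ∀ k, bk ψ a k ≠ 0) {h : ℝ} (hh : ∀ k, ht (bk ψ a k) = h) :
    ∃ β : ZMod d → ℝ, (∀ l, 0 ≤ β l) ∧ ∑ l, β l ≤ 1 ∧ 1 - 4 * h ≤ ∑ l, β l ∧
      ∀ (J : Finset (ZMod d)) (π : Equiv.Perm (ZMod d)), (XM a J π).det ≠ 0 →
        ∑ j ∈ J, ∑ i ∈ Jᶜ, β (π i - j) ≤
          2 * (d * (κ * h + ∑ l ∈ d.primeFactors, Real.log (D l))) := by
  obtain ⟨E, _, _, _, φ, v, hv⟩ := exists_field_fin (Ω := Ω)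
    (Sum.elim a ψ : ZMod d ⊕ ZMod d → Ω)
  have hφ : Function.Injective φ := φ.injective
  set a' : ZMod d → E := fun x => v (Sum.inl x) with ha'
  have hψv : ∀ x, φ (v (Sum.inr x)) = ψ x := fun x => hv (Sum.inr x)
  have hav : ∀ x, φ (a' x) = a x := fun x => hv (Sum.inl x)
  obtain ⟨ψ', hψ'⟩ : ∃ ψ' : AddChar (ZMod d) E, ∀ x, φ (ψ' x) = ψ x := by
    refine ⟨{ toFun := fun x => v (Sum.inr x), map_zero_eq_one' := ?_, map_add_eq_mul' := ?_ },
      fun x => hψv x⟩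
    · apply hφ
      rw [hψv, map_one, AddChar.map_zero_eq_one]
    · intro x y
      apply hφ
      rw [map_mul φ, hψv, hψv, hψv, AddChar.map_add_eq_mul]
  have ho' : Orth ψ' := by
    intro x hx
    apply hφ
    rw [map_sum, map_zero]
    simp only [hψ']
    exact ho x hx
  have hbk : ∀ k, φ (bk ψ' a' k) = bk ψ a k := by
    intro k
    unfold bk
    rw [map_sum]
    refine Finset.sum_congr rfl fun l _ => ?_
    rw [map_mul φ, hψ', hav]
  have hb' : ∀ k, bk ψ' a' k ≠ 0 := by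
    intro k h0
    apply hb k
    rw [← hbk, h0, map_zero]
  have hh' : ∀ k, ht (bk ψ' a' k) = h := by
    intro k
    rw [← hh k, ← hbk, ht_ringHom]
  have hloc' : ∀ (l : ℕ) [Fact l.Prime], l ∣ d → ∀ τ : E →ₐ[ℚ] PadicAlgCl l,
      ∀ (J : Finset (ZMod d)) (π : Equiv.Perm (ZMod d)),
      ‖(XM (fun x => τ (a' x)) J π).det‖ ≤ D l ^ d * (∏ k, max 1 ‖τ (bk ψ' a' k)‖) ^ κ := by
    intro l hl hld τ J π
    obtain ⟨τ', h⟩ := exists_extend φ (τ : E →+* PadicAlgCl l)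
    have h1 := hloc l hld τ' J π
    have h3 : (fun x => τ' (a x)) = fun x => τ (a' x) := by
      funext x
      rw [← hav, h]
      rfl
    rw [h3] at h1
    have h2 : ∀ k, ‖τ' (bk ψ a k)‖ = ‖τ (bk ψ' a' k)‖ := by
      intro k
      rw [← hbk, h]
      rfl
    simp only [h2] at h1
    exact h1
  refine ⟨bb ψ' a', bb_nonneg ψ' a', sum_bb_le ho' a', sum_bb_ge ho' a' hb' hh',
    fun J π hdet => main_bb' ho' a' hκ D hD hh' J π
      (fun l _ hld τ => hloc' l hld τ J π) ?_⟩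
  intro h0
  apply hdet
  have h1 := XM_map φ a' J π
  rw [h0, map_zero] at h1
  simpa only [hav] using h1

end closure

end SP
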