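import Pool.Agent.Lib_helper72.SP.Main1
import Pool.Agent.Lib_helper72.SP.Vol2

/-!
An element `P(g) / Q(g) + A(g)` of a pure extension is a monomial or has large height.
-/

set_option autoImplicit false

namespace SP

open Finset Polynomial Matrix MS RR

open scoped IntermediateField

universe u

variable {Ω : Type u} [Field Ω] [Algebra ℚ Ω] [Algebra.IsAlgebraic ℚ Ω]

/-- the general theorem, with local losses at the primes dividing `d` -/
theorem thmG {K : IntermediateField ℚ Ω} {g : Ω} (hg : g ≠ 0) {d : ℕ} [NeZero d] {t : K}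
    (hm : minpoly K g = X ^ d - C t) {ψ : AddChar (ZMod d) Ω} (ho : Orth ψ) {A : K[X]}
    (hA : A.natDegree < d) (hA0 : A ≠ 0) {κ : ℕ} (hκ : 1 ≤ κ) (D : ℕ → ℝ) (hD : ∀ l, 1 ≤ D l)
    (hloc : ∀ (l : ℕ) [Fact l.Prime], l ∣ d → ∀ τ : Ω →+* PadicAlgCl l,
      ∀ (J : Finset (ZMod d)) (π : Equiv.Perm (ZMod d)),
      ‖(XM (fun x => τ (aa A g x)) J π).det‖ ≤
        D l ^ d * (∏ k, max 1 ‖τ (bk ψ (aa A g) k)‖) ^ κ) :
    (∃ (c : K) (j : ℕ), aeval g A = algebraMap K Ω c * g ^ j) ∨
      1 / 32 ≤ κ * ht (aeval g A) + ∑ l ∈ d.primeFactors, Real.log (D l) := by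
  have hd : 0 < d := NeZero.pos d
  have hdR : (0 : ℝ) < d := by exact_mod_cast hd
  have hdm := natDegree_of_minpoly hm
  have hgd : g ^ d = algebraMap K Ω t := by
    have := minpoly.aeval K g
    rw [hm, map_sub, map_pow, aeval_X, aeval_C, sub_eq_zero] at this
    exact this
  set h₀ := ht (aeval g A) with hh₀
  have hh00 : 0 ≤ h₀ := ht_nonneg _
  have hΔ : 0 ≤ ∑ l ∈ d.primeFactors, Real.log (D l) :=
    Finset.sum_nonneg fun l _ => Real.log_nonneg (hD l)
  set h := κ * h₀ + ∑ l ∈ d.primeFactors, Real.log (D l) with hh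
  have hκR : (1 : ℝ) ≤ κ := by exact_mod_cast hκ
  have hle : h₀ ≤ h := by
    have : 1 * h₀ ≤ κ * h₀ := mul_le_mul_of_nonneg_right hκR hh00
    linarith
  have hh0 : 0 ≤ h := hh00.trans hle
  have hA1 : aeval g A ≠ 0 := aeval_ne_zero_of_natDegree_lt hA0 (by rw [hdm]; exact hA)
  have hconj : ∀ k : ZMod d, (ψ k * g) ^ d = algebraMap K Ω t := by
    intro k
    rw [mul_pow, char_pow, one_mul, hgd]
  obtain ⟨β, hβ0, hβ1, hβ2, hβ3⟩ := main_omega' ho (aa A g) hκ D hD hloc (h := h₀)
    (fun k => by rw [bk_aa hA]; exact (ht_conj hd hm (hconj k) A).2 hA1)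
    (fun k => by rw [bk_aa hA]; exact (ht_conj hd hm (hconj k) A).1)
  rw [← hh] at hβ3
  have hβ2' : 1 - 4 * h ≤ ∑ l, β l := by linarith
  have hdet := Bm_det hA hm hA0
  -- step 1
  obtain ⟨l, hl⟩ : ∃ l, 1 - 24 * h ≤ β l := by
    refine concentrate hβ0 hβ1 hh0 hβ2' fun I => ?_
    obtain ⟨J, π, _, hJ, hJd⟩ := exchange hdet I ∅ (fun y hy _ => funext fun j => hy j (by simp))
    exact ⟨J, π, hJ, hβ3 J π (XM_det hg hgd J π hJd)⟩
  -- step 2
  by_cases hmon : ∃ c : K, aeval g A = algebraMap K Ω c * g ^ l.val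
  · obtain ⟨c, hc⟩ := hmon
    exact Or.inl ⟨c, l.val, hc⟩
  right
  push Not at hmon
  obtain ⟨W, hWc, hW⟩ := window_zmod hA hg hm l hmon
  classical
  obtain ⟨J, π, hWJ, hJ, hJd⟩ := exchange hdet (univ.filter fun i => i - l ∉ W) W
    (fun y hy1 hy2 => hW y hy1 fun i hi => hy2 i (by rw [mem_filter]; exact ⟨mem_univ _, hi⟩))
  have h1 := hβ3 J π (XM_det hg hgd J π hJd)
  have h2 := weight_ge hβ0 hJ hWJ (l := l) (fun j hj => by
    rw [mem_filter, add_sub_cancel_right]
    exact fun h => h.2 hj)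
  have h3 : (d : ℝ) ≤ 4 * W.card := by exact_mod_cast hWc
  have hWpos : (0 : ℝ) < W.card := by linarith
  have h4 : β l * W.card ≤ 8 * h * W.card := by
    calc β l * W.card ≤ 2 * (d * h) := h2.trans h1
      _ ≤ 2 * (4 * W.card * h) := by
        have := mul_le_mul_of_nonneg_right h3 hh0
        linarith
      _ = _ := by ring
  have h5 : β l ≤ 8 * h := le_of_mul_le_mul_right h4 hWpos
  linarith

/-- the norm of `d` -/
theorem norm_nat (l : ℕ) [hl : Fact l.Prime] {d : ℕ} (hd : d ≠ 0) :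
    ‖(d : PadicAlgCl l)‖ = Real.exp (-(d.factorization l * Real.log l)) := by
  have h1 := Nat.ordProj_mul_ordCompl_eq_self d l
  have h2 : ¬ l ∣ d / l ^ d.factorization l := Nat.not_dvd_ordCompl hl.out hd
  have hl0 : (0 : ℝ) < l := by exact_mod_cast hl.out.pos
  conv_lhs => rw [← h1]
  rw [Nat.cast_mul, norm_mul, norm_natCast_prime h2, mul_one, Nat.cast_pow, norm_pow, norm_p,
    Real.exp_neg, Real.exp_nat_mul, Real.exp_log hl0, inv_pow]

/-- the polynomial `P(τ(g) X)` -/
noncomputable def scl {K : IntermediateField ℚ Ω} {l : ℕ} [Fact l.Prime] (τ : Ω →+* PadicAlgCl l)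
    (g : Ω) (P : K[X]) : (PadicAlgCl l)[X] :=
  (P.map (τ.comp (algebraMap K Ω))).comp (C (τ g) * X)

omit [Algebra.IsAlgebraic ℚ Ω] in
theorem scl_coeff {K : IntermediateField ℚ Ω} {l : ℕ} [Fact l.Prime] (τ : Ω →+* PadicAlgCl l)
    (g : Ω) (P : K[X]) (n : ℕ) :
    (scl τ g P).coeff n = τ (algebraMap K Ω (P.coeff n) * g ^ n) := by
  unfold scl
  rw [comp_C_mul_X_coeff, coeff_map, map_mul, map_pow]
  rfl

omit [Algebra.IsAlgebraic ℚ Ω] in
theorem scl_natDegree {K : IntermediateField ℚ Ω} {l : ℕ} [Fact l.Prime] (τ : Ω →+* PadicAlgCl l)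
    (g : Ω) (P : K[X]) {m : ℕ} (hP : P.natDegree ≤ m) : (scl τ g P).natDegree ≤ m := by
  rw [natDegree_le_iff_coeff_eq_zero]
  intro n hn
  rw [scl_coeff, coeff_eq_zero_of_natDegree_lt (by omega), map_zero, zero_mul, map_zero]

omit [Algebra.IsAlgebraic ℚ Ω] in
theorem scl_eval {K : IntermediateField ℚ Ω} {l : ℕ} [Fact l.Prime] (τ : Ω →+* PadicAlgCl l)
    (g : Ω) (P : K[X]) (z : Ω) : (scl τ g P).eval (τ z) = τ (aeval (z * g) P) := by
  unfold scl
  rw [eval_comp, eval_mul, eval_C, eval_X, eval_map, ← map_mul, mul_comm g z, aeval_def,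
    hom_eval₂]

omit [Algebra.IsAlgebraic ℚ Ω] in
/-- elements of `K(g)` as polynomials -/
theorem exists_pol {K : IntermediateField ℚ Ω} {g : Ω} {d : ℕ} (hd : 0 < d) {t : K}
    (hm : minpoly K g = X ^ d - C t) {β : Ω} (hβ : β ∈ K⟮g⟯) :
    ∃ A : K[X], A.natDegree < d ∧ aeval g A = β := by
  have hint := isInt_of_minpoly hd hm
  have h1 : β ∈ Algebra.adjoin K {g} := by
    rw [← IntermediateField.adjoin_simple_toSubalgebra_of_isAlgebraic hint.isAlgebraic]
    exact hβ
  rw [Algebra.adjoin_singleton_eq_range_aeval] at h1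
  obtain ⟨P, hP⟩ := h1
  have hP' : aeval g P = β := hP
  have hqm : (minpoly K g).Monic := minpoly.monic hint
  have hqd : (minpoly K g).natDegree = d := natDegree_of_minpoly hm
  refine ⟨P %ₘ minpoly K g, ?_, ?_⟩
  · have : minpoly K g ≠ 1 := by
      intro h
      rw [h, natDegree_one] at hqd
      omega
    rw [← hqd]
    exact natDegree_modByMonic_lt P hqm this
  · have h2 := modByMonic_add_div P (minpoly K g)
    have h3 := congrArg (aeval g) h2
    rw [map_add, map_mul, minpoly.aeval, zero_mul, add_zero] at h3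
    rw [h3]
    exact hP'

/-- **Rational functions of degree `≤ d / (96 log d)`, plus integral elements.** -/
theorem thmR {K : IntermediateField ℚ Ω} {g : Ω} (hg : g ≠ 0) {d : ℕ} [NeZero d] {t : K}
    (hm : minpoly K g = X ^ d - C t) {ψ : AddChar (ZMod d) Ω} (ho : Orth ψ) {P Q A : K[X]}
    {m : ℕ} (hP : P.natDegree ≤ m) (hQ : Q.natDegree ≤ m) (hQ0 : aeval g Q ≠ 0) (s : ℕ)
    (hint : ∀ (l : ℕ) [Fact l.Prime], l ∣ d → ∀ τ : Ω →+* PadicAlgCl l, ∀ n,
      ‖τ (algebraMap K Ω (A.coeff n) * g ^ n)‖ ≤ 1)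
    {β : Ω} (hβ : β = g ^ s * (aeval g P / aeval g Q) + aeval g A) (hβ0 : β ≠ 0)
    (hdm : 96 * (m * Real.log d) ≤ d) :
    (∃ (c : K) (j : ℕ), β = algebraMap K Ω c * g ^ j) ∨ 1 / 64 ≤ ht β := by
  have hd : 0 < d := NeZero.pos d
  have hdR : (0 : ℝ) < d := by exact_mod_cast hd
  have hgd : g ^ d = algebraMap K Ω t := by
    have := minpoly.aeval K g
    rw [hm, map_sub, map_pow, aeval_X, aeval_C, sub_eq_zero] at this
    exact this
  have hgmem : g ∈ K⟮g⟯ := IntermediateField.mem_adjoin_simple_self K g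
  have haem : ∀ T : K[X], aeval g T ∈ K⟮g⟯ := fun T => aeval_mem T
  have hβm : β ∈ K⟮g⟯ := by
    rw [hβ]
    exact add_mem (mul_mem (pow_mem hgmem s) (div_mem (haem P) (haem Q))) (haem A)
  obtain ⟨B, hBd, hBβ⟩ := exists_pol hd hm hβm
  have hB0 : B ≠ 0 := by
    rintro rfl
    rw [map_zero] at hBβ
    exact hβ0 hBβ.symm
  have hconj : ∀ k : ZMod d, (ψ k * g) ^ d = algebraMap K Ω t := by
    intro k
    rw [mul_pow, char_pow, one_mul, hgd]
  -- the identity for the conjugates
  have hid : ∀ k : ZMod d, aeval (ψ k * g) Q * aeval (ψ k * g) B =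
      (ψ k * g) ^ s * aeval (ψ k * g) P + aeval (ψ k * g) A * aeval (ψ k * g) Q := by
    intro k
    have h1 : aeval g (Q * B - X ^ s * P - A * Q) = 0 := by
      rw [map_sub, map_sub, map_mul, map_mul, map_mul, map_pow, aeval_X, hBβ, hβ]
      field_simp
      ring
    obtain ⟨R, hR⟩ := minpoly.dvd K g h1
    have h2 : aeval (ψ k * g) (minpoly K g) = 0 := by
      rw [hm, map_sub, map_pow, aeval_X, aeval_C, hconj k, sub_self]
    have h3 : aeval (ψ k * g) (Q * B - X ^ s * P - A * Q) = 0 := by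
      rw [hR, map_mul, h2, zero_mul]
    rw [map_sub, map_sub, map_mul, map_mul, map_mul, map_pow, aeval_X] at h3
    linear_combination h3
  have hQk : ∀ k : ZMod d, aeval (ψ k * g) Q ≠ 0 := fun k => (ht_conj hd hm (hconj k) Q).2 hQ0
  have hthm := thmG hg hm ho hBd hB0 (κ := 1) le_rfl
    (fun l => Real.exp (3 * m / 2 * (d.factorization l * Real.log l) / d))
    (fun l => Real.one_le_exp (by
      have : 0 ≤ Real.log l := Real.log_natCast_nonneg l
      positivity))
    (by
      intro l hl hld τ J π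
      have ho' : Orth (((τ : Ω →+* PadicAlgCl l) : Ω →* PadicAlgCl l).compAddChar ψ) := ho.map τ
      have hbk := bk_map ψ τ (aa B g)
      have h1 := det_rat_le ho' (fun x => τ (aa B g x)) (C (τ g ^ s) * scl τ g P) (scl τ g Q)
        (scl τ g A)
        (fun n => by rw [scl_coeff]; exact hint l hld τ n)
        ((natDegree_C_mul_le _ _).trans (scl_natDegree τ g P hP))
        (scl_natDegree τ g Q hQ) s
        (fun k => by
          have e : (((τ : Ω →+* PadicAlgCl l) : Ω →* PadicAlgCl l).compAddChar ψ) k = τ (ψ k) :=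
            rfl
          rw [hbk, e, eval_mul, eval_C, scl_eval, scl_eval, scl_eval, bk_aa hBd]
          have h2 := congrArg τ (hid k)
          rw [map_mul τ, map_add τ, map_mul τ, map_mul τ, map_pow τ, map_mul τ (ψ k), mul_pow] at h2
          rw [h2]
          ring)
        (fun k => by
          have e : (((τ : Ω →+* PadicAlgCl l) : Ω →* PadicAlgCl l).compAddChar ψ) k = τ (ψ k) :=
            rfl
          rw [e, scl_eval, Ne, map_eq_zero]
          exact hQk k) J π
      simp only [hbk] at h1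
      rw [pow_one]
      set W := ∏ k, max 1 ‖τ (bk ψ (aa B g) k)‖ with hW
      have hW0 : 0 ≤ W := Finset.prod_nonneg fun _ _ => zero_le_one.trans (le_max_left _ _)
      have hE : Real.exp (3 * m / 2 * (d.factorization l * Real.log l) / d) ^ d =
          Real.exp (3 * m / 2 * (d.factorization l * Real.log l)) := by
        rw [← Real.exp_nat_mul]
        congr 1
        field_simp
      rw [hE]
      refine abs_le_of_sq_le_sq' ?_ (by positivity) |>.2
      have hn : ‖(d : PadicAlgCl l)‖ ^ (3 * m) =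
          (Real.exp (3 * m / 2 * (d.factorization l * Real.log l)) ^ 2)⁻¹ := by
        rw [norm_nat l hd.ne', ← Real.exp_nat_mul, ← Real.exp_nat_mul, ← Real.exp_neg]
        congr 1
        push_cast
        ring
      rw [hn] at h1
      rw [mul_pow]
      have hpos : 0 < Real.exp (3 * m / 2 * (d.factorization l * Real.log l)) ^ 2 := by positivity
      rw [← div_eq_mul_inv, div_le_iff₀ hpos] at h1
      linarith)
  rw [hBβ] at hthm
  rcases hthm with h | h
  · exact Or.inl h
  right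
  have hΔ : ∑ l ∈ d.primeFactors, Real.log
      (Real.exp (3 * m / 2 * (d.factorization l * Real.log l) / d)) =
      3 * m / 2 * Real.log d / d := by
    simp only [Real.log_exp]
    rw [Real.log_nat_eq_sum_factorization d, Finsupp.sum, Nat.support_factorization,
      Finset.mul_sum, Finset.sum_div]
  rw [hΔ, Nat.cast_one, one_mul] at h
  have h1 : 3 * m / 2 * Real.log d / d ≤ 1 / 64 := by
    rw [div_le_iff₀ hdR]
    linarith
  linarith

end SP
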