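import Pool.Agent.Lib_helper72.SP.Loc2

/-!
Local lemmas for rational functions at the `d`-th roots of unity over the algebraic closure of
`ℚ_p`: products of differences, Gauss norms.
-/

set_option autoImplicit false

namespace SP

open Finset Polynomial MS RR

variable {p : ℕ} [hp : Fact p.Prime] {d : ℕ} [NeZero d]

/-! ### the roots of unity -/

theorem prim {K : Type*} [Field K] [CharZero K] {ψ : AddChar (ZMod d) K} (ho : Orth ψ) :
    IsPrimitiveRoot (ψ 1) d := by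
  refine IsPrimitiveRoot.mk_of_lt _ (NeZero.pos d) (char_pow' ψ 1) fun k hk hkd h => ?_
  have h1 : ψ (k : ZMod d) = 1 := by
    rw [← h, ← AddChar.map_nsmul_eq_pow, nsmul_eq_mul, mul_one]
  have h2 : (k : ZMod d) ≠ 0 := by
    intro h0
    rw [ZMod.natCast_eq_zero_iff] at h0
    exact absurd (Nat.le_of_dvd hk h0) (by omega)
  exact char_ne_one ho h2 h1

theorem prod_one_sub {K : Type*} [Field K] [CharZero K] {ψ : AddChar (ZMod d) K} (ho : Orth ψ) :
    ∏ x ∈ univ.erase (0 : ZMod d), (1 - ψ x) = d := by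
  classical
  have h0 := NeZero.pos d
  obtain ⟨n, rfl⟩ : ∃ n, d = n + 1 := ⟨d - 1, by omega⟩
  have h1 := (prim ho).prod_one_sub_pow_eq_order
  push_cast
  rw [← h1]
  symm
  refine Finset.prod_bij (fun k _ => ((k + 1 : ℕ) : ZMod (n + 1))) ?_ ?_ ?_ ?_
  · intro k hk
    rw [mem_erase]
    refine ⟨fun h => ?_, mem_univ _⟩
    rw [ZMod.natCast_eq_zero_iff] at h
    have := Nat.le_of_dvd (by omega) h
    rw [mem_range] at hk
    omega
  · intro k hk k' hk' h
    rw [mem_range] at hk hk'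
    have h2 := (ZMod.natCast_eq_natCast_iff' _ _ _).1 h
    rw [Nat.mod_eq_of_lt (by omega), Nat.mod_eq_of_lt (by omega)] at h2
    omega
  · intro x hx
    have hx0 : x ≠ 0 := (mem_erase.1 hx).1
    have hv : 0 < x.val := Nat.pos_of_ne_zero fun h => hx0 ((ZMod.val_eq_zero x).1 h)
    have hlt := ZMod.val_lt x
    refine ⟨x.val - 1, mem_range.2 (by omega), ?_⟩
    rw [Nat.sub_add_cancel hv, ZMod.natCast_zmod_val]
  · intro k _
    rw [← AddChar.map_nsmul_eq_pow, nsmul_eq_mul, mul_one]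

theorem norm_char (ψ : AddChar (ZMod d) (PadicAlgCl p)) (y : ZMod d) : ‖ψ y‖ = 1 :=
  norm_root_of_unity (NeZero.ne d) (char_pow' ψ y)

theorem norm_sub_char_le (ψ : AddChar (ZMod d) (PadicAlgCl p)) (x y : ZMod d) :
    ‖ψ x - ψ y‖ ≤ 1 :=
  (norm_sub_le_max' _ _).trans (by rw [norm_char, norm_char, max_self])

theorem prod_norm_sub {ψ : AddChar (ZMod d) (PadicAlgCl p)} (ho : Orth ψ) (i : ZMod d) :
    ∏ j ∈ univ.erase i, ‖ψ j - ψ i‖ = ‖(d : PadicAlgCl p)‖ := by
  classical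
  rw [← prod_one_sub ho, norm_prod]
  refine Finset.prod_bij (fun j _ => j - i) ?_ ?_ ?_ ?_
  · intro j hj
    rw [mem_erase] at hj ⊢
    exact ⟨sub_ne_zero.2 hj.1, mem_univ _⟩
  · intro j _ j' _ h
    exact sub_left_injective h
  · intro x hx
    rw [mem_erase] at hx
    refine ⟨x + i, ?_, add_sub_cancel_right _ _⟩
    rw [mem_erase]
    exact ⟨fun h => hx.1 (by simpa using h), mem_univ _⟩
  · intro j _
    have e1 : ψ j - ψ i = ψ i * (ψ (j - i) - 1) := by
      rw [mul_sub, mul_one, ← AddChar.map_add_eq_mul, add_sub_cancel]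
    rw [e1, norm_mul, norm_char, one_mul, norm_sub_rev]

/-- products over subsets -/
theorem prod_subset_ge {ψ : AddChar (ZMod d) (PadicAlgCl p)} (ho : Orth ψ) (i : ZMod d)
    (s : Finset (ZMod d)) (hs : i ∉ s) :
    ‖(d : PadicAlgCl p)‖ ≤ ∏ j ∈ s, ‖ψ j - ψ i‖ := by
  classical
  rw [← prod_norm_sub ho i]
  have hsub : s ⊆ univ.erase i := fun j hj => mem_erase.2 ⟨fun h => hs (h ▸ hj), mem_univ _⟩
  rw [← Finset.prod_sdiff hsub]
  refine mul_le_of_le_one_left (Finset.prod_nonneg fun _ _ => norm_nonneg _) ?_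
  exact Finset.prod_le_one (fun _ _ => norm_nonneg _) fun j _ => norm_sub_char_le ψ _ _

/-! ### Gauss norms -/

theorem coeff_prod_le' {n : ℕ} (s : Finset (Fin n)) (ρ : Fin n → PadicAlgCl p) (k : ℕ) :
    ‖(∏ i ∈ s, (X - C (ρ i))).coeff k‖ ≤ ∏ i ∈ s, max 1 ‖ρ i‖ := by
  classical
  induction s using Finset.induction_on generalizing k with
  | empty =>
    rw [Finset.prod_empty, Finset.prod_empty, coeff_one]
    split_ifs <;> simp
  | insert a s ha ih =>
    have hM : 0 ≤ ∏ i ∈ s, max 1 ‖ρ i‖ :=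
      Finset.prod_nonneg fun _ _ => zero_le_one.trans (le_max_left _ _)
    rw [Finset.prod_insert ha, Finset.prod_insert ha, mul_comm (X - C (ρ a))]
    rcases k with _ | k
    · rw [mul_coeff_zero]
      simp only [coeff_sub, coeff_X_zero, coeff_C_zero, zero_sub, mul_neg, norm_neg, norm_mul]
      rw [mul_comm]
      exact mul_le_mul (le_max_right _ _) (ih 0) (norm_nonneg _)
        (zero_le_one.trans (le_max_left _ _))
    · rw [coeff_mul_X_sub_C]
      refine (norm_sub_le_max' _ _).trans (max_le ?_ ?_)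
      · exact (ih k).trans (le_mul_of_one_le_left hM (le_max_left _ _))
      · rw [norm_mul, mul_comm]
        exact mul_le_mul (le_max_right _ _) (ih _) (norm_nonneg _)
          (zero_le_one.trans (le_max_left _ _))

theorem gauss_mul {A Q : (PadicAlgCl p)[X]} (hA : ∀ n, ‖A.coeff n‖ ≤ 1)
    (hQ : ∀ n, ‖Q.coeff n‖ ≤ 1) (n : ℕ) : ‖(A * Q).coeff n‖ ≤ 1 := by
  rw [coeff_mul]
  refine MS.norm_sum_le' _ _ zero_le_one fun x _ => ?_
  rw [norm_mul]
  exact mul_le_one₀ (hA _) (norm_nonneg _) (hQ _)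

/-- the roots of a polynomial, as a finite family -/
theorem exists_roots (R : (PadicAlgCl p)[X]) : ∃ ρ : Fin R.natDegree → PadicAlgCl p,
    R = C R.leadingCoeff * ∏ i, (X - C (ρ i)) := by
  have hs := IsAlgClosed.splits R
  have h1 := hs.eq_prod_roots
  have h2 : R.roots.card = R.natDegree := hs.natDegree_eq_card_roots.symm
  set l := R.roots.toList with hl
  have h3 : l.length = R.natDegree := by rw [hl, Multiset.length_toList, h2]
  refine ⟨fun i => l.get (Fin.cast h3.symm i), ?_⟩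
  have h4 : (R.roots.map fun a => X - C a).prod = (l.map fun a => X - C a).prod := by
    rw [← Multiset.prod_coe, ← Multiset.map_coe, hl, Multiset.coe_toList]
  have h5 : (l.map fun a => X - C a).prod = ∏ i : Fin l.length, (X - C (l.get i)) := by
    rw [← List.prod_ofFn]
    congr 1
    conv_lhs => rw [← List.ofFn_get l, List.map_ofFn]
    rfl
  conv_lhs => rw [h1, h4, h5]
  congr 1
  exact (Equiv.prod_comp (finCongr h3.symm) fun i => X - C (l.get i)).symm

/-- **away from the nearest points of the roots the values of a primitive polynomial are large** -/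
theorem prod_compl_ge {ψ : AddChar (ZMod d) (PadicAlgCl p)} (ho : Orth ψ)
    (R : (PadicAlgCl p)[X]) (hR : ∃ n, 1 ≤ ‖R.coeff n‖) {m : ℕ} (hm : R.natDegree ≤ m) :
    ∃ B : Finset (ZMod d), B.card ≤ m ∧
      ‖(d : PadicAlgCl p)‖ ^ m ≤ ∏ k ∈ Bᶜ, ‖R.eval (ψ k)‖ := by
  classical
  obtain ⟨ρ, hρ⟩ := exists_roots R
  have hnear : ∀ x : PadicAlgCl p, ∃ k₀ : ZMod d, ∀ k, ‖ψ k₀ - x‖ ≤ ‖ψ k - x‖ := by
    intro x
    obtain ⟨k₀, -, h⟩ := Finset.exists_min_image (univ : Finset (ZMod d)) (fun k => ‖ψ k - x‖)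
      ⟨0, mem_univ _⟩
    exact ⟨k₀, fun k => h k (mem_univ k)⟩
  choose k₀ hk₀ using hnear
  have hd1 : ‖(d : PadicAlgCl p)‖ ≤ 1 := norm_natCast_le_one d
  refine ⟨univ.image fun i => k₀ (ρ i), ?_, ?_⟩
  · refine Finset.card_image_le.trans ?_
    rw [Finset.card_univ, Fintype.card_fin]
    exact hm
  set B := univ.image fun i => k₀ (ρ i) with hB
  have hlc : 1 ≤ ‖R.leadingCoeff‖ * ∏ i, max 1 ‖ρ i‖ := by
    obtain ⟨n, hn⟩ := hR
    rw [hρ, coeff_C_mul, norm_mul] at hn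
    exact hn.trans (mul_le_mul_of_nonneg_left (coeff_prod_le' univ ρ n) (norm_nonneg _))
  have hdist : ∀ (k : ZMod d) (x : PadicAlgCl p), max 1 ‖x‖ * ‖ψ k - ψ (k₀ x)‖ ≤ ‖ψ k - x‖ := by
    intro k x
    rcases le_or_gt ‖x‖ 1 with h | h
    · rw [max_eq_left h, one_mul]
      have e : ψ k - ψ (k₀ x) = (ψ k - x) - (ψ (k₀ x) - x) := by ring
      rw [e]
      exact (norm_sub_le_max' _ _).trans (max_le le_rfl (hk₀ x k))
    · rw [max_eq_right h.le]
      have h1 : ‖x‖ ≤ ‖ψ k - x‖ := by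
        have e : x = ψ k - (ψ k - x) := by ring
        have h2 : ‖x‖ ≤ max ‖ψ k‖ ‖ψ k - x‖ := by
          conv_lhs => rw [e]
          exact norm_sub_le_max' _ _
        rw [norm_char] at h2
        rcases le_max_iff.1 h2 with h3 | h3
        · exact absurd h (not_lt.2 h3)
        · exact h3
      exact (mul_le_of_le_one_right (norm_nonneg _) (norm_sub_char_le ψ _ _)).trans h1
  have hval : ∀ k, ∏ i, ‖ψ k - ψ (k₀ (ρ i))‖ ≤ ‖R.eval (ψ k)‖ := by
    intro k
    have h1 : ‖R.eval (ψ k)‖ = ‖R.leadingCoeff‖ * ∏ i, ‖ψ k - ρ i‖ := by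
      conv_lhs => rw [hρ]
      rw [eval_mul, eval_C, norm_mul, eval_prod, norm_prod]
      congr 1
      exact Finset.prod_congr rfl fun i _ => by rw [eval_sub, eval_X, eval_C]
    rw [h1]
    calc ∏ i, ‖ψ k - ψ (k₀ (ρ i))‖ = 1 * ∏ i, ‖ψ k - ψ (k₀ (ρ i))‖ := (one_mul _).symm
      _ ≤ (‖R.leadingCoeff‖ * ∏ i, max 1 ‖ρ i‖) * ∏ i, ‖ψ k - ψ (k₀ (ρ i))‖ :=
          mul_le_mul_of_nonneg_right hlc (Finset.prod_nonneg fun _ _ => norm_nonneg _)
      _ = ‖R.leadingCoeff‖ * ∏ i, (max 1 ‖ρ i‖ * ‖ψ k - ψ (k₀ (ρ i))‖) := by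
          rw [Finset.prod_mul_distrib, mul_assoc]
      _ ≤ ‖R.leadingCoeff‖ * ∏ i, ‖ψ k - ρ i‖ := by
          refine mul_le_mul_of_nonneg_left ?_ (norm_nonneg _)
          exact Finset.prod_le_prod (fun _ _ => by positivity) fun i _ => hdist k (ρ i)
  calc ‖(d : PadicAlgCl p)‖ ^ m ≤ ‖(d : PadicAlgCl p)‖ ^ R.natDegree :=
        pow_le_pow_of_le_one (norm_nonneg _) hd1 hm
    _ = ∏ _i : Fin R.natDegree, ‖(d : PadicAlgCl p)‖ := by
        rw [Finset.prod_const, Finset.card_univ, Fintype.card_fin]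
    _ ≤ ∏ i, ∏ k ∈ Bᶜ, ‖ψ k - ψ (k₀ (ρ i))‖ := by
        refine Finset.prod_le_prod (fun _ _ => norm_nonneg _) fun i _ => ?_
        refine prod_subset_ge ho _ _ ?_
        rw [mem_compl, not_not, hB]
        exact mem_image_of_mem _ (mem_univ i)
    _ = ∏ k ∈ Bᶜ, ∏ i, ‖ψ k - ψ (k₀ (ρ i))‖ := Finset.prod_comm
    _ ≤ _ := Finset.prod_le_prod (fun _ _ => Finset.prod_nonneg fun _ _ => norm_nonneg _)
        fun k _ => hval k

/-! ### folding -/

/-- reduction of a polynomial modulo `X ^ d - 1` -/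
noncomputable def fold (d : ℕ) (P : (PadicAlgCl p)[X]) (l : ZMod d) : PadicAlgCl p :=
  ∑ n ∈ range (P.natDegree + 1), if (n : ZMod d) = l then P.coeff n else 0

omit [NeZero d] in
theorem norm_fold_le {P : (PadicAlgCl p)[X]} (h : ∀ n, ‖P.coeff n‖ ≤ 1) (l : ZMod d) :
    ‖fold d P l‖ ≤ 1 := by
  unfold fold
  refine MS.norm_sum_le' _ _ zero_le_one fun n _ => ?_
  split_ifs
  · exact h n
  · rw [norm_zero]; exact zero_le_one

theorem bk_fold (ψ : AddChar (ZMod d) (PadicAlgCl p)) (P : (PadicAlgCl p)[X]) (k : ZMod d) :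
    bk ψ (fold d P) k = P.eval (ψ k) := by
  unfold bk fold
  rw [eval_eq_sum_range]
  simp only [Finset.sum_mul]
  rw [Finset.sum_comm]
  refine Finset.sum_congr rfl fun n _ => ?_
  rw [Finset.sum_eq_single (n : ZMod d)]
  · rw [if_pos rfl]
    congr 1
    have e : k * (n : ZMod d) = n • k := by rw [nsmul_eq_mul, mul_comm]
    rw [e, AddChar.map_nsmul_eq_pow]
  · intro l _ hl
    rw [if_neg (Ne.symm hl), zero_mul]
  · intro h; exact absurd (mem_univ _) h

end SP
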